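import Pool.Agent.Odp2.Defs
import Pool.Agent.Odp2.Lim.Ideal

open scoped ContDiff Topology ENNReal NNReal WithZero
open Set MeasureTheory Filter MvPolynomial Pool.Agent.ODP

namespace Pool.Agent.Odp2

variable {n d : ℕ} {B : Type} [CommRing B] [IsDomain B] [Algebra ℂ B] {G : Germ n d B} {x : Pt B}
  (p : Pts G x)

omit [IsDomain B] in
/-- The constant coefficients of an element of the span of the basis. -/
theorem Eval.cf_const (G : Germ n d B) (v : Fin d → ℂ) :
    G.cf (∑ k, algebraMap ℂ B (v k) * G.e k) = fun k => C (v k) := by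
  symm
  apply G.cf_unique
  refine Finset.sum_congr rfl fun k _ => ?_
  rw [aeval_C]

omit [IsDomain B] in
/-- The value of an element in terms of the coefficients. -/
theorem Eval.apply_eq (G : Germ n d B) (χ : Pt B) (b : B) :
    χ b = ∑ i, eval (proj G.y χ) (G.cf b i) * χ (G.e i) := by
  conv_lhs => rw [G.cf_spec b]
  rw [map_sum]
  refine Finset.sum_congr rfl fun i _ => ?_
  rw [map_mul]
  congr 1
  generalize G.cf b i = q
  induction q using MvPolynomial.induction_on with
  | C z =>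
    rw [aeval_C, AlgHom.commutes, eval_C]; rfl
  | add q r hq hr => rw [map_add, map_add, map_add, hq, hr]
  | mul_X q j hq =>
    rw [map_mul, map_mul, map_mul, hq, aeval_X, eval_X]; rfl

/-- An element which vanishes at all points over `w` is in the ideal `(y - w)`. -/
theorem Eval.mem_of_fibre (G : Germ n d B) {w : Fin n → ℂ} (hD : eval w G.D ≠ 0) {b : B}
    (hb : ∀ χ : Pt B, proj G.y χ = w → χ b = 0) :
    b ∈ Ideal.span (range fun j => G.y j - algebraMap ℂ B (w j)) := by
  have hd : d ≠ 0 := by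
    rintro rfl
    have h1 := G.cf_spec 1
    simp at h1
  have hfin : {χ : Pt B | proj G.y χ = w}.Finite := by
    apply Set.finite_of_ncard_ne_zero
    rw [G.card w hD]; exact hd
  have hc : Nat.card {χ : Pt B | proj G.y χ = w} = d := by
    rw [Nat.card_coe_set_eq]; exact G.card w hD
  have : Finite {χ : Pt B | proj G.y χ = w} := hfin
  let f : Fin d ≃ {χ : Pt B | proj G.y χ = w} := (Finite.equivFinOfCardEq hc).symm
  let A : Matrix (Fin d) (Fin d) ℂ := fun a i => (f a : Pt B) (G.du i)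
  let E : Matrix (Fin d) (Fin d) ℂ := fun i a => (eval w G.D)⁻¹ * (f a : Pt B) (G.e i)
  have hAE : A * E = 1 := by
    ext a a'
    rw [Matrix.mul_apply]
    have h1 := G.du_spec w hD (f a) (f a') (f a).2 (f a').2
    have h2 : ∑ i, A a i * E i a' = (eval w G.D)⁻¹ * ∑ i, (f a : Pt B) (G.du i) *
        (f a' : Pt B) (G.e i) := by
      rw [Finset.mul_sum]
      refine Finset.sum_congr rfl fun i _ => ?_
      simp only [A, E]; ring
    rw [h2]
    by_cases haa : a = a'
    · subst haa
      rw [h1.1 rfl, Matrix.one_apply_eq, inv_mul_cancel₀ hD]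
    · rw [h1.2 (fun h => haa (f.injective (Subtype.ext h))), Matrix.one_apply_ne haa, mul_zero]
  have hEA : E * A = 1 := mul_eq_one_comm.mp hAE
  have hz : ∀ j, eval w (G.cf b j) = 0 := by
    intro j
    have h3 : ∑ i, eval w (G.cf b i) * (E * A) i j = eval w (G.cf b j) := by
      rw [hEA]; simp [Matrix.one_apply]
    rw [← h3]
    have h4 : ∀ i, eval w (G.cf b i) * (E * A) i j = ∑ a, (eval w G.D)⁻¹ * A a j *
        (eval w (G.cf b i) * (f a : Pt B) (G.e i)) := by
      intro i
      rw [Matrix.mul_apply, Finset.mul_sum]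
      refine Finset.sum_congr rfl fun a _ => ?_
      simp only [E]; ring
    rw [Finset.sum_congr rfl fun i _ => h4 i, Finset.sum_comm]
    refine Finset.sum_eq_zero fun a _ => ?_
    rw [← Finset.mul_sum]
    have h5 := Eval.apply_eq G (f a : Pt B) b
    rw [hb _ (f a).2] at h5
    have h6 : proj G.y (f a : Pt B) = w := (f a).2
    rw [h6] at h5
    rw [← h5, mul_zero]
  rw [G.cf_spec b]
  refine Ideal.sum_mem _ fun i _ => Ideal.mul_mem_right _ _ ?_
  -- the polynomial vanishes at `w`
  have key : ∀ q : MvPolynomial (Fin n) ℂ, aeval G.y q - algebraMap ℂ B (eval w q) ∈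
      Ideal.span (range fun j => G.y j - algebraMap ℂ B (w j)) := by
    intro q
    induction q using MvPolynomial.induction_on with
    | C z => simp
    | add q r hq hr =>
      have : aeval G.y (q + r) - algebraMap ℂ B (eval w (q + r)) =
        (aeval G.y q - algebraMap ℂ B (eval w q)) + (aeval G.y r - algebraMap ℂ B (eval w r)) := by
        simp only [map_add]; ring
      rw [this]; exact Ideal.add_mem _ hq hr
    | mul_X q j hq =>
      have : aeval G.y (q * X j) - algebraMap ℂ B (eval w (q * X j)) =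
        (aeval G.y q - algebraMap ℂ B (eval w q)) * G.y j +
          algebraMap ℂ B (eval w q) * (G.y j - algebraMap ℂ B (w j)) := by
        simp only [map_mul, aeval_X, eval_X]; ring
      rw [this]
      exact Ideal.add_mem _ (Ideal.mul_mem_right _ _ hq)
        (Ideal.mul_mem_left _ _ (Ideal.subset_span ⟨j, rfl⟩))
  have h7 := key (G.cf b i)
  rwa [hz i, map_zero, sub_zero] at h7

/-- A function vanishes to the order one if and only if it vanishes. -/
theorem vanAt_one (a : Fin n → ℕ) (ha : ∀ j, 1 ≤ a j) {χ : Pt B}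
    (hD : eval (proj G.y χ) G.D ≠ 0) (F : B) : VanAt G a 1 χ F ↔ χ F = 0 := by
  constructor
  · rintro ⟨t, ht, htF⟩
    have h1 : Ideal.span {b | ∃ m : Fin n → ℕ, 1 ≤ ∑ j, a j * m j ∧
        b = ∏ j, (G.y j - algebraMap ℂ B (χ (G.y j))) ^ m j} ≤ RingHom.ker χ := by
      rw [Ideal.span_le]
      rintro b ⟨m, hm, rfl⟩
      have h2 : ∃ j, m j ≠ 0 := by
        by_contra hcon
        push Not at hcon
        simp [hcon] at hm
      obtain ⟨j, hj⟩ := h2
      change χ _ = 0
      rw [map_prod]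
      refine Finset.prod_eq_zero (Finset.mem_univ j) ?_
      rw [map_pow, map_sub, AlgHom.commutes]
      simp [hj]
    have h3 : χ (t * F) = 0 := h1 htF
    rw [map_mul] at h3
    exact (mul_eq_zero.mp h3).resolve_left ht
  · intro hF
    refine ⟨∑ i, algebraMap ℂ B (χ (G.du i)) * G.e i, ?_, ?_⟩
    · rw [map_sum]
      have h1 := (G.du_spec _ hD χ χ rfl rfl).1 rfl
      have h2 : ∑ i, χ (algebraMap ℂ B (χ (G.du i)) * G.e i) = ∑ i, χ (G.du i) * χ (G.e i) := by
        refine Finset.sum_congr rfl fun i _ => ?_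
        rw [map_mul, AlgHom.commutes]; rfl
      rw [h2, h1]; exact hD
    · have h1 : (∑ i, algebraMap ℂ B (χ (G.du i)) * G.e i) * F ∈
          Ideal.span (range fun j => G.y j - algebraMap ℂ B (χ (G.y j))) := by
        apply Eval.mem_of_fibre G (w := proj G.y χ) hD
        intro χ' hχ'
        rw [map_mul]
        by_cases h : χ' = χ
        · rw [h, hF, mul_zero]
        · have h2 : ∑ i, χ' (algebraMap ℂ B (χ (G.du i)) * G.e i) =
              ∑ i, χ (G.du i) * χ' (G.e i) := by
            refine Finset.sum_congr rfl fun i _ => ?_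
            rw [map_mul, AlgHom.commutes]; rfl
          rw [map_sum, h2, (G.du_spec _ hD χ χ' rfl hχ').2 (fun h' => h h'.symm), zero_mul]
      refine (Ideal.span_mono ?_) h1
      rintro b ⟨j, rfl⟩
      refine ⟨Pi.single j 1, ?_, ?_⟩
      · rw [Finset.sum_eq_single j]
        · simpa using ha j
        · intro i _ hij; simp [hij]
        · intro h; exact absurd (Finset.mem_univ j) h
      · rw [Finset.prod_eq_single j]
        · simp
        · intro i _ hij; simp [hij]
        · intro h; exact absurd (Finset.mem_univ j) h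

/-- small values at the two points suffice. -/
theorem eval_mem_JI {a : Fin n → ℕ} (ha : ∀ j, 1 ≤ a j) : ∃ c : ℕ → ℝ, (∀ ν, 0 < c ν) ∧
    ∀ (v : ℕ → Fin d → ℂ) (v' : Fin d → ℂ),
      (∀ k, Tendsto (fun ν => v ν k) (hyperfilter ℕ : Filter ℕ) (𝓝 (v' k))) →
      (∀ᶠ ν in (hyperfilter ℕ : Filter ℕ), ∀ i, ‖∑ k, v ν k * p.p i ν (G.e k)‖ ≤ c ν) →
      ∑ k, algebraMap ℂ B (v' k) * G.e k ∈ JI p a 1 := by
  let S : ℕ → ℝ := fun ν => 1 + ∑ i, ∑ k, ‖p.p i ν (G.du k)‖
  have hS : ∀ ν, 0 < S ν := fun ν => by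
    have : 0 ≤ ∑ i, ∑ k, ‖p.p i ν (G.du k)‖ := by positivity
    simp only [S]; linarith
  have hS1 : ∀ ν i k, ‖p.p i ν (G.du k)‖ ≤ S ν := fun ν i k => by
    have h1 : ‖p.p i ν (G.du k)‖ ≤ ∑ k, ‖p.p i ν (G.du k)‖ :=
      Finset.single_le_sum (f := fun k => ‖p.p i ν (G.du k)‖) (fun _ _ => norm_nonneg _)
        (Finset.mem_univ k)
    have h2 : ∑ k, ‖p.p i ν (G.du k)‖ ≤ ∑ i, ∑ k, ‖p.p i ν (G.du k)‖ :=
      Finset.single_le_sum (f := fun i => ∑ k, ‖p.p i ν (G.du k)‖)
        (fun _ _ => Finset.sum_nonneg fun _ _ => norm_nonneg _) (Finset.mem_univ i)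
    simp only [S]; linarith
  have hDp : ∀ ν, 0 < ‖eval (p.q ν) G.D‖ := fun ν => norm_pos_iff.mpr (p.D_ne ν)
  refine ⟨fun ν => ‖eval (p.q ν) G.D‖ / (((ν : ℝ) + 1) * S ν), fun ν => ?_, ?_⟩
  · have := hS ν; have := hDp ν; positivity
  intro v v' hv hc
  let ev : ℕ → Fin 2 → ℂ := fun ν i => ∑ k, v ν k * p.p i ν (G.e k)
  let u : ℕ → Fin d → ℂ := fun ν k =>
    ∑ i, (eval (p.q ν) G.D)⁻¹ * (ev ν i * p.p i ν (G.du k))
  refine Ideal.subset_span ⟨fun ν => ∑ k, algebraMap ℂ B (v ν k - u ν k) * G.e k, ?_, ?_⟩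
  · refine Eventually.of_forall fun ν i => ?_
    rw [vanAt_one a ha (by rw [p.proj_p]; exact p.D_ne ν)]
    rw [map_sum]
    have h1 : ∑ k, p.p i ν (algebraMap ℂ B (v ν k - u ν k) * G.e k) =
        ev ν i - ∑ k, u ν k * p.p i ν (G.e k) := by
      simp only [ev]
      rw [← Finset.sum_sub_distrib]
      refine Finset.sum_congr rfl fun k _ => ?_
      rw [map_mul, AlgHom.commutes]
      change (v ν k - u ν k) * _ = _
      ring
    rw [h1]
    have h2 : ∑ k, u ν k * p.p i ν (G.e k) = ∑ i', (eval (p.q ν) G.D)⁻¹ * (ev ν i' *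
        ∑ k, p.p i' ν (G.du k) * p.p i ν (G.e k)) := by
      simp only [u, Finset.sum_mul, Finset.mul_sum]
      rw [Finset.sum_comm]
      refine Finset.sum_congr rfl fun i' _ => Finset.sum_congr rfl fun k _ => ?_
      ring
    rw [h2]
    have h3 : ∀ i', i' ≠ i → ∑ k, p.p i' ν (G.du k) * p.p i ν (G.e k) = 0 := by
      intro i' hi'
      refine (G.du_spec _ (p.D_ne ν) _ _ (p.proj_p i' ν) (p.proj_p i ν)).2 ?_
      have h4 := p.ne ν
      fin_cases i' <;> fin_cases i <;> simp_all
      exact fun h => h4 h.symm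
    rw [Finset.sum_eq_single i]
    · rw [(G.du_spec _ (p.D_ne ν) _ _ (p.proj_p i ν) (p.proj_p i ν)).1 rfl]
      have := p.D_ne ν
      field_simp
      simp
    · intro i' _ hi'
      rw [h3 i' hi']; simp
    · intro h; exact absurd (Finset.mem_univ i) h
  · have hu : ∀ k, Tendsto (fun ν => u ν k) (hyperfilter ℕ : Filter ℕ) (𝓝 0) := by
      intro k
      have h1 : Tendsto (fun ν : ℕ => 2 / ((ν : ℝ) + 1)) (hyperfilter ℕ : Filter ℕ) (𝓝 0) := by
        have h2 : Tendsto (fun ν : ℕ => 2 * (1 / ((ν : ℝ) + 1))) atTop (𝓝 (2 * 0)) :=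
          tendsto_one_div_add_atTop_nhds_zero_nat.const_mul 2
        rw [mul_zero] at h2
        refine (h2.mono_left Nat.hyperfilter_le_atTop).congr fun ν => ?_
        ring
      refine squeeze_zero_norm' ?_ h1
      filter_upwards [hc] with ν hν
      have hb : ∀ i : Fin 2, ‖(eval (p.q ν) G.D)⁻¹ * (ev ν i * p.p i ν (G.du k))‖ ≤
          1 / ((ν : ℝ) + 1) := by
        intro i
        rw [norm_mul, norm_mul, norm_inv]
        have h3 : ‖ev ν i‖ * ‖p.p i ν (G.du k)‖ ≤
            (‖eval (p.q ν) G.D‖ / (((ν : ℝ) + 1) * S ν)) * S ν := by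
          refine mul_le_mul (hν i) (hS1 ν i k) (norm_nonneg _) ?_
          have := hS ν; have := hDp ν; positivity
        have h4 := hDp ν
        have h5 := hS ν
        calc ‖eval (p.q ν) G.D‖⁻¹ * (‖ev ν i‖ * ‖p.p i ν (G.du k)‖)
            ≤ ‖eval (p.q ν) G.D‖⁻¹ * ((‖eval (p.q ν) G.D‖ / (((ν : ℝ) + 1) * S ν)) * S ν) := by
              gcongr
          _ = 1 / ((ν : ℝ) + 1) := by
              field_simp
      calc ‖u ν k‖ ≤ ∑ i : Fin 2, ‖(eval (p.q ν) G.D)⁻¹ * (ev ν i * p.p i ν (G.du k))‖ :=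
            norm_sum_le _ _
        _ ≤ ∑ i : Fin 2, 1 / ((ν : ℝ) + 1) := Finset.sum_le_sum fun i _ => hb i
        _ = 2 / ((ν : ℝ) + 1) := by simp; ring
    refine ⟨{0}, ?_, ?_⟩
    · refine Eventually.of_forall fun ν i => ?_
      rw [Eval.cf_const]
      intro m hm
      change m ∈ (C (v ν i - u ν i) : MvPolynomial (Fin n) ℂ).support at hm
      rw [mem_support_iff, coeff_C] at hm
      rw [Finset.mem_singleton]
      by_contra h
      exact hm (if_neg fun h' => h h'.symm)
    · intro i m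
      simp only [Eval.cf_const, coeff_C]
      by_cases hm : 0 = m
      · simp only [hm, if_true]
        have := (hv i).sub (hu i)
        simpa using this
      · simp only [hm, if_false]
        exact tendsto_const_nhds

end Pool.Agent.Odp2
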