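import Pool.Agent.Odp2.Defs

/-!
# The ideal of functions vanishing to a weighted order at points over a general `q`
-/

open scoped Topology ENNReal NNReal WithZero
open Set Filter MvPolynomial Pool.Agent.ODP

namespace Pool.Agent.Odp2

variable {n d : ℕ} {B : Type} [CommRing B] [Algebra ℂ B] (G : Germ n d B)

/-- local coordinates -/
def cl58t (q : Fin n → ℂ) (j : Fin n) : B := G.y j - algebraMap ℂ B (q j)

/-- the ideal of the weighted order -/
def cl58W (a : Fin n → ℕ) (N : ℕ) (q : Fin n → ℂ) : Ideal B :=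
  Ideal.span {b | ∃ m : Fin n → ℕ, N ≤ ∑ j, a j * m j ∧ b = ∏ j, cl58t G q j ^ m j}

theorem cl58_vanAt {a : Fin n → ℕ} {N : ℕ} {q : Fin n → ℂ} {χ : Pt B} (hχ : proj G.y χ = q)
    (F : B) : VanAt G a N χ F ↔ ∃ t : B, χ t ≠ 0 ∧ t * F ∈ cl58W G a N q := by
  subst hχ
  rfl

theorem cl58_W_le_mul {a : Fin n → ℕ} {N M : ℕ} {q : Fin n → ℂ} {b c : B}
    (hb : b ∈ cl58W G a N q) (hc : c ∈ cl58W G a M q) : b * c ∈ cl58W G a (N + M) q := by
  have h1 : cl58W G a N q * cl58W G a M q ≤ cl58W G a (N + M) q := by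
    unfold cl58W
    rw [Ideal.span_mul_span', Ideal.span_le]
    rintro _ ⟨b, ⟨m, hm, rfl⟩, c, ⟨m', hm', rfl⟩, rfl⟩
    refine Ideal.subset_span ⟨m + m', ?_, ?_⟩
    · simp only [Pi.add_apply, mul_add, Finset.sum_add_distrib]
      omega
    · simp only [Pi.add_apply, pow_add, Finset.prod_mul_distrib]
  exact h1 (Ideal.mul_mem_mul hb hc)

theorem cl58_W_anti {a : Fin n → ℕ} {N M : ℕ} (h : N ≤ M) (q : Fin n → ℂ) :
    cl58W G a M q ≤ cl58W G a N q := by
  refine Ideal.span_mono ?_
  rintro _ ⟨m, hm, rfl⟩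
  exact ⟨m, h.trans hm, rfl⟩

theorem cl58_t_mem {a : Fin n → ℕ} (q : Fin n → ℂ) (j : Fin n) :
    cl58t G q j ∈ cl58W G a (a j) q := by
  classical
  refine Ideal.subset_span ⟨Pi.single j 1, ?_, ?_⟩
  · rw [Finset.sum_eq_single j]
    · simp
    · intro b _ hb
      simp [Pi.single_eq_of_ne hb]
    · simp
  · rw [Finset.prod_eq_single j]
    · simp
    · intro b _ hb
      simp [Pi.single_eq_of_ne hb]
    · simp

theorem cl58_pow_mem {a : Fin n → ℕ} (ha : ∀ j, 1 ≤ a j) (q : Fin n → ℂ) {b : B}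
    (hb : b ∈ Ideal.span (range (cl58t G q))) (k : ℕ) : b ^ k ∈ cl58W G a k q := by
  have h1 : Ideal.span (range (cl58t G q)) ≤ cl58W G a 1 q := by
    rw [Ideal.span_le]
    rintro _ ⟨j, rfl⟩
    exact cl58_W_anti G (ha j) q (cl58_t_mem G q j)
  induction k with
  | zero =>
    rw [pow_zero]
    exact Ideal.subset_span ⟨0, by simp, by simp⟩
  | succ k ih =>
    rw [pow_succ]
    exact cl58_W_le_mul G ih (h1 hb)

/-- the ideal of the functions vanishing at `χ` -/
def cl58I (a : Fin n → ℕ) (N : ℕ) (χ : Pt B) : Ideal B where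
  carrier := {F | VanAt G a N χ F}
  add_mem' := by
    rintro F F' ⟨t, h1, h2⟩ ⟨t', h3, h4⟩
    refine ⟨t * t', by rw [map_mul]; exact mul_ne_zero h1 h3, ?_⟩
    have h5 : t * t' * (F + F') = t' * (t * F) + t * (t' * F') := by ring
    rw [h5]
    exact Ideal.add_mem _ (Ideal.mul_mem_left _ _ h2) (Ideal.mul_mem_left _ _ h4)
  zero_mem' := ⟨1, by rw [map_one]; exact one_ne_zero, by rw [mul_zero]; exact Ideal.zero_mem _⟩
  smul_mem' := by
    rintro c F ⟨t, h1, h2⟩
    refine ⟨t, h1, ?_⟩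
    have h5 : t * (c • F) = c * (t * F) := by
      rw [smul_eq_mul]
      ring
    rw [h5]
    exact Ideal.mul_mem_left _ _ h2

theorem cl58_mem_I {a : Fin n → ℕ} {N : ℕ} {χ : Pt B} {F : B} :
    F ∈ cl58I G a N χ ↔ VanAt G a N χ F := Iff.rfl

theorem cl58_W_le_I {a : Fin n → ℕ} {N : ℕ} {q : Fin n → ℂ} {χ : Pt B} (hχ : proj G.y χ = q) :
    cl58W G a N q ≤ cl58I G a N χ := by
  intro F hF
  rw [cl58_mem_I, cl58_vanAt G hχ]
  exact ⟨1, by rw [map_one]; exact one_ne_zero, by rwa [one_mul]⟩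

/-- the shift of the variables -/
noncomputable def cl58sh (q : Fin n → ℂ) : MvPolynomial (Fin n) ℂ →ₐ[ℂ] MvPolynomial (Fin n) ℂ :=
  aeval fun j => X j + C (q j)

theorem cl58_sh_sh (q : Fin n → ℂ) (c : MvPolynomial (Fin n) ℂ) :
    cl58sh q (cl58sh (-q) c) = c := by
  have h : (cl58sh q).comp (cl58sh (-q)) = AlgHom.id ℂ _ := by
    apply MvPolynomial.algHom_ext
    intro j
    simp [cl58sh]
  exact DFunLike.congr_fun h c

theorem cl58_aeval_sh (q : Fin n → ℂ) (c : MvPolynomial (Fin n) ℂ) :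
    aeval (cl58t G q) (cl58sh q c) = aeval G.y c := by
  have h : (aeval (cl58t G q)).comp (cl58sh q) = aeval G.y := by
    apply MvPolynomial.algHom_ext
    intro j
    simp [cl58sh, cl58t]
  exact DFunLike.congr_fun h c

/-- the coefficients at `q` -/
noncomputable def cl58K (q : Fin n → ℂ) (b : B) (i : Fin d) : MvPolynomial (Fin n) ℂ :=
  cl58sh q (G.cf b i)

theorem cl58_K_spec (q : Fin n → ℂ) (b : B) :
    b = ∑ i, aeval (cl58t G q) (cl58K G q b i) * G.e i := by
  conv_lhs => rw [G.cf_spec b]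
  refine Finset.sum_congr rfl fun i _ => ?_
  rw [cl58K, cl58_aeval_sh]

theorem cl58_K_unique (q : Fin n → ℂ) {b : B} {c : Fin d → MvPolynomial (Fin n) ℂ}
    (h : b = ∑ i, aeval (cl58t G q) (c i) * G.e i) : c = cl58K G q b := by
  have h1 : b = ∑ i, aeval G.y (cl58sh (-q) (c i)) * G.e i := by
    rw [h]
    refine Finset.sum_congr rfl fun i _ => ?_
    rw [← cl58_aeval_sh G q, cl58_sh_sh]
  have h2 := G.cf_unique b (fun i => cl58sh (-q) (c i)) h1
  funext i
  rw [cl58K, ← h2, cl58_sh_sh]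

theorem cl58_K_add (q : Fin n → ℂ) (b b' : B) : cl58K G q (b + b') = cl58K G q b + cl58K G q b' := by
  symm
  apply cl58_K_unique G q
  conv_lhs => rw [cl58_K_spec G q b, cl58_K_spec G q b']
  rw [← Finset.sum_add_distrib]
  refine Finset.sum_congr rfl fun i _ => ?_
  rw [Pi.add_apply, map_add, add_mul]

theorem cl58_K_smul (q : Fin n → ℂ) (c : MvPolynomial (Fin n) ℂ) (b : B) :
    cl58K G q (aeval (cl58t G q) c * b) = fun i => c * cl58K G q b i := by
  symm
  apply cl58_K_unique G q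
  conv_lhs => rw [cl58_K_spec G q b]
  rw [Finset.mul_sum]
  refine Finset.sum_congr rfl fun i _ => ?_
  rw [map_mul, mul_assoc]

/-- the exponents of weight less than `N` -/
abbrev cl58S (a : Fin n → ℕ) (N : ℕ) : Type := {m : Fin n → ℕ // ∑ j, a j * m j < N}

theorem cl58_finite_S {a : Fin n → ℕ} (ha : ∀ j, 1 ≤ a j) (N : ℕ) : Finite (cl58S a N) := by
  have h : {m : Fin n → ℕ | ∑ j, a j * m j < N} ⊆ Set.pi Set.univ fun _ => Set.Iio N := by
    intro m hm j _
    have h1 : a j * m j ≤ ∑ j, a j * m j :=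
      Finset.single_le_sum (f := fun j => a j * m j) (fun _ _ => Nat.zero_le _) (Finset.mem_univ j)
    have h2 : m j ≤ a j * m j := Nat.le_mul_of_pos_left _ (ha j)
    have h3 : ∑ j, a j * m j < N := hm
    exact lt_of_le_of_lt (h2.trans h1) h3
  exact ((Set.Finite.pi fun _ => Set.finite_Iio N).subset h).to_subtype

/-- the exponent as a finitely supported function -/
noncomputable abbrev cl58x (m : Fin n → ℕ) : Fin n →₀ ℕ := Finsupp.equivFunOnFinite.symm m

/-- the coordinates modulo `W` -/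
noncomputable def cl58L (a : Fin n → ℕ) (N : ℕ) (q : Fin n → ℂ) :
    B →ₗ[ℂ] (Fin d × cl58S a N → ℂ) where
  toFun b := fun im => coeff (cl58x im.2.1) (cl58K G q b im.1)
  map_add' b b' := by
    funext im
    rw [cl58_K_add]
    simp
  map_smul' c b := by
    funext im
    have h1 : c • b = aeval (cl58t G q) (C c) * b := by
      rw [← MvPolynomial.algebraMap_eq, AlgHom.commutes, Algebra.smul_def]
    rw [h1, cl58_K_smul]
    simp [coeff_C_mul]

theorem cl58_aeval_monomial (q : Fin n → ℂ) (m : Fin n → ℕ) (c : ℂ) :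
    aeval (cl58t G q) (monomial (cl58x m) c) = algebraMap ℂ B c * ∏ j, cl58t G q j ^ m j := by
  rw [aeval_monomial, Finsupp.prod_fintype]
  · rfl
  · intro j
    exact pow_zero _

theorem cl58_L_surj (a : Fin n → ℕ) (ha : ∀ j, 1 ≤ a j) (N : ℕ) (q : Fin n → ℂ) :
    Function.Surjective (cl58L G a N q) := by
  classical
  have := cl58_finite_S ha N
  have := Fintype.ofFinite (cl58S a N)
  intro v
  let c : Fin d → MvPolynomial (Fin n) ℂ := fun i => ∑ m : cl58S a N, monomial (cl58x m.1) (v (i, m))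
  refine ⟨∑ i, aeval (cl58t G q) (c i) * G.e i, ?_⟩
  funext im
  have h1 := cl58_K_unique G q (b := ∑ i, aeval (cl58t G q) (c i) * G.e i) (c := c) rfl
  show coeff (cl58x im.2.1) (cl58K G q _ im.1) = v im
  rw [← h1]
  show coeff (cl58x im.2.1) (∑ m : cl58S a N, monomial (cl58x m.1) (v (im.1, m))) = v im
  rw [coeff_sum, Finset.sum_eq_single im.2]
  · rw [coeff_monomial, if_pos rfl]
  · intro m _ hm
    rw [coeff_monomial, if_neg]
    intro h
    exact hm (Subtype.ext (Finsupp.equivFunOnFinite.symm.injective h))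
  · intro h
    exact absurd (Finset.mem_univ _) h

/-- the polynomials of weighted order at least `N` -/
def cl58P (a : Fin n → ℕ) (N : ℕ) : Ideal (MvPolynomial (Fin n) ℂ) where
  carrier := {c | ∀ m : Fin n →₀ ℕ, ∑ j, a j * m j < N → coeff m c = 0}
  add_mem' := by
    intro c c' h h' m hm
    rw [coeff_add, h m hm, h' m hm, add_zero]
  zero_mem' := fun m _ => coeff_zero m
  smul_mem' := by
    classical
    intro c c' h m hm
    rw [smul_eq_mul, coeff_mul]
    refine Finset.sum_eq_zero fun uv huv => ?_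
    have h1 : uv.1 + uv.2 = m := Finset.HasAntidiagonal.mem_antidiagonal.1 huv
    have h2 : ∑ j, a j * uv.2 j ≤ ∑ j, a j * m j := by
      refine Finset.sum_le_sum fun j _ => Nat.mul_le_mul_left _ ?_
      rw [← h1, Finsupp.add_apply]
      omega
    rw [h uv.2 (lt_of_le_of_lt h2 hm), mul_zero]

theorem cl58_K_mul (q : Fin n → ℂ) (b b' : B) (i : Fin d) :
    cl58K G q (b' * b) i = ∑ k, cl58K G q b k * cl58K G q (G.e k * b') i := by
  have h1 : b' * b = ∑ k, aeval (cl58t G q) (cl58K G q b k) * (G.e k * b') := by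
    conv_lhs => rw [cl58_K_spec G q b]
    rw [Finset.mul_sum]
    refine Finset.sum_congr rfl fun k _ => ?_
    ring
  have h2 : ∀ s : Finset (Fin d), cl58K G q (∑ k ∈ s, aeval (cl58t G q) (cl58K G q b k) *
      (G.e k * b')) i = ∑ k ∈ s, cl58K G q b k * cl58K G q (G.e k * b') i := by
    classical
    intro s
    induction s using Finset.induction_on with
    | empty =>
      have h3 : cl58K G q (0 : B) = 0 := by
        have := cl58_K_add G q 0 0
        rw [add_zero] at this
        exact left_eq_add.1 this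
      rw [Finset.sum_empty, Finset.sum_empty, h3]
      rfl
    | insert k s hk ih =>
      rw [Finset.sum_insert hk, Finset.sum_insert hk, cl58_K_add, Pi.add_apply, ih, cl58_K_smul]
  rw [h1, h2]

theorem cl58_mem_W_iff {a : Fin n → ℕ} (N : ℕ) (q : Fin n → ℂ) (b : B) :
    b ∈ cl58W G a N q ↔ cl58L G a N q b = 0 := by
  classical
  constructor
  · intro hb
    let J : Ideal B :=
      { carrier := {b | ∀ i, cl58K G q b i ∈ cl58P a N}
        add_mem' := by
          intro b b' h h' i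
          rw [cl58_K_add]
          exact Ideal.add_mem _ (h i) (h' i)
        zero_mem' := by
          intro i
          have h3 : cl58K G q (0 : B) = 0 := by
            have := cl58_K_add G q 0 0
            rw [add_zero] at this
            exact left_eq_add.1 this
          rw [h3]
          exact Ideal.zero_mem _
        smul_mem' := by
          intro b' b h i
          rw [smul_eq_mul, cl58_K_mul]
          exact Ideal.sum_mem _ fun k _ => Ideal.mul_mem_right _ _ (h k) }
    have h1 : cl58W G a N q ≤ J := by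
      unfold cl58W
      rw [Ideal.span_le]
      rintro _ ⟨m, hm, rfl⟩ i
      have h2 : ∏ j, cl58t G q j ^ m j = aeval (cl58t G q) (monomial (cl58x m) (1 : ℂ)) * 1 := by
        rw [cl58_aeval_monomial, map_one, one_mul, mul_one]
      rw [h2, cl58_K_smul]
      refine Ideal.mul_mem_right _ _ ?_
      intro m' hm'
      rw [coeff_monomial, if_neg]
      rintro rfl
      have h3 : ∑ j, a j * (cl58x m) j = ∑ j, a j * m j := rfl
      omega
    have h2 : b ∈ J := h1 hb
    funext im
    exact h2 im.1 (cl58x im.2.1) im.2.2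
  · intro hb
    rw [cl58_K_spec G q b]
    refine Ideal.sum_mem _ fun i _ => ?_
    rw [mul_comm]
    refine Ideal.mul_mem_left _ _ ?_
    rw [MvPolynomial.as_sum (cl58K G q b i), map_sum]
    refine Ideal.sum_mem _ fun m hm => ?_
    have h1 : (cl58x (fun j => m j)) = m := by
      ext j
      rfl
    rw [← h1, cl58_aeval_monomial]
    refine Ideal.mul_mem_left _ _ (Ideal.subset_span ⟨fun j => m j, ?_, rfl⟩)
    by_contra hcon
    push Not at hcon
    have h2 := congrFun hb (i, ⟨fun j => m j, hcon⟩)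
    have h3 : coeff m (cl58K G q b i) = 0 := by
      rw [← h1]
      exact h2
    exact (mem_support_iff.1 hm) h3

/-! ### the points over `q` -/

include G in
theorem cl58_d_pos [Nontrivial B] : 0 < d := by
  rcases Nat.eq_zero_or_pos d with h | h
  · subst h
    have h1 := G.cf_spec 1
    rw [Finset.univ_eq_empty, Finset.sum_empty] at h1
    exact absurd h1 one_ne_zero
  · exact h

theorem cl58_fin [Nontrivial B] {q : Fin n → ℂ} (hD : eval q G.D ≠ 0) :
    {χ : Pt B | proj G.y χ = q}.Finite := by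
  refine Set.finite_of_ncard_pos ?_
  rw [G.card q hD]
  exact cl58_d_pos G

/-- the function with value one at `χ` and zero at the other points over `q` -/
noncomputable def cl58s (χ : Pt B) : B :=
  ∑ i, algebraMap ℂ B (χ (G.du i) / eval (proj G.y χ) G.D) * G.e i

theorem cl58_s_val {q : Fin n → ℂ} (hD : eval q G.D ≠ 0) {χ χ' : Pt B} (hχ : proj G.y χ = q)
    (hχ' : proj G.y χ' = q) :
    (χ = χ' → χ' (cl58s G χ) = 1) ∧ (χ ≠ χ' → χ' (cl58s G χ) = 0) := by
  have h1 : χ' (cl58s G χ) = (∑ i, χ (G.du i) * χ' (G.e i)) / eval q G.D := by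
    unfold cl58s
    rw [map_sum, Finset.sum_div]
    refine Finset.sum_congr rfl fun i _ => ?_
    rw [map_mul, AlgHom.commutes, Algebra.algebraMap_self, RingHom.id_apply, hχ]
    ring
  obtain ⟨h2, h3⟩ := G.du_spec q hD χ χ' hχ hχ'
  refine ⟨fun h => ?_, fun h => ?_⟩
  · rw [h1, h2 h, div_self hD]
  · rw [h1, h3 h, zero_div]

theorem cl58_aeval_sub_mem (q : Fin n → ℂ) (c : MvPolynomial (Fin n) ℂ) :
    aeval G.y c - algebraMap ℂ B (eval q c) ∈ Ideal.span (range (cl58t G q)) := by
  set I := Ideal.span (range (cl58t G q)) with hI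
  have h : (Ideal.Quotient.mkₐ ℂ I).comp (aeval G.y) =
      (Algebra.ofId ℂ (B ⧸ I)).comp (aeval q : MvPolynomial (Fin n) ℂ →ₐ[ℂ] ℂ) := by
    apply MvPolynomial.algHom_ext
    intro j
    rw [AlgHom.comp_apply, AlgHom.comp_apply, aeval_X, aeval_X]
    show Ideal.Quotient.mk I (G.y j) = Ideal.Quotient.mk I (algebraMap ℂ B (q j))
    rw [Ideal.Quotient.eq]
    exact Ideal.subset_span ⟨j, rfl⟩
  have h1 := DFunLike.congr_fun h c
  rw [AlgHom.comp_apply, AlgHom.comp_apply] at h1
  have h2 : Ideal.Quotient.mk I (aeval G.y c) = Ideal.Quotient.mk I (algebraMap ℂ B (eval q c)) := by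
    have h3 : (aeval q : MvPolynomial (Fin n) ℂ →ₐ[ℂ] ℂ) c = eval q c := by
      rw [MvPolynomial.aeval_eq_eval]
    rw [h3] at h1
    exact h1
  exact (Ideal.Quotient.eq).1 h2

theorem cl58_t_val {q : Fin n → ℂ} {χ : Pt B} (hχ : proj G.y χ = q) {b : B}
    (hb : b ∈ Ideal.span (range (cl58t G q))) : χ b = 0 := by
  have h1 : Ideal.span (range (cl58t G q)) ≤ RingHom.ker χ := by
    rw [Ideal.span_le]
    rintro _ ⟨j, rfl⟩
    show χ (cl58t G q j) = 0
    rw [cl58t, map_sub, AlgHom.commutes, Algebra.algebraMap_self, RingHom.id_apply, ← hχ]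
    exact sub_self _
  exact h1 hb

theorem cl58_mem_of_val [Nontrivial B] {q : Fin n → ℂ} (hD : eval q G.D ≠ 0) {b : B}
    (hb : ∀ χ : Pt B, proj G.y χ = q → χ b = 0) : b ∈ Ideal.span (range (cl58t G q)) := by
  classical
  have : Fintype {χ : Pt B | proj G.y χ = q} := (cl58_fin G hD).fintype
  let ι : Type := ↥{χ : Pt B | proj G.y χ = q}
  have hcard : Fintype.card ι = Fintype.card (Fin d) := by
    rw [Fintype.card_fin, ← G.card q hD, ← Nat.card_eq_fintype_card]
    rfl
  let A : Matrix ι (Fin d) ℂ := fun χ i => χ.1 (G.e i)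
  let U : Matrix (Fin d) ι ℂ := fun i χ => χ.1 (G.du i) / eval q G.D
  have hAU : A * U = 1 := by
    ext χ' χ
    rw [Matrix.mul_apply, Matrix.one_apply]
    obtain ⟨h2, h3⟩ := G.du_spec q hD χ.1 χ'.1 χ.2 χ'.2
    have h1 : ∑ i, A χ' i * U i χ = (∑ i, χ.1 (G.du i) * χ'.1 (G.e i)) / eval q G.D := by
      rw [Finset.sum_div]
      refine Finset.sum_congr rfl fun i _ => ?_
      show χ'.1 (G.e i) * (χ.1 (G.du i) / eval q G.D) = _
      ring
    rw [h1]
    split_ifs with h
    · rw [h2 (congrArg Subtype.val h.symm), div_self hD]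
    · rw [h3 (fun h' => h (Subtype.ext h'.symm)), zero_div]
  have hUA : U * A = 1 := (Matrix.mul_eq_one_comm_of_card_eq ι (Fin d) ℂ hcard).1 hAU
  set β : Fin d → ℂ := fun i => eval q (G.cf b i) with hβ
  have h1 : b - ∑ i, algebraMap ℂ B (β i) * G.e i ∈ Ideal.span (range (cl58t G q)) := by
    have h0 : b - ∑ i, algebraMap ℂ B (β i) * G.e i = ∑ i, aeval G.y (G.cf b i) * G.e i -
        ∑ i, algebraMap ℂ B (β i) * G.e i := by
      conv_lhs => rw [G.cf_spec b]
    rw [h0, ← Finset.sum_sub_distrib]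
    refine Ideal.sum_mem _ fun i _ => ?_
    rw [← sub_mul]
    exact Ideal.mul_mem_right _ _ (cl58_aeval_sub_mem G q _)
  have h2 : A.mulVec β = 0 := by
    funext χ
    have h3 := cl58_t_val G χ.2 h1
    rw [map_sub, hb χ.1 χ.2, zero_sub, neg_eq_zero, map_sum] at h3
    rw [Matrix.mulVec, dotProduct, Pi.zero_apply, ← h3]
    refine Finset.sum_congr rfl fun i _ => ?_
    rw [map_mul, AlgHom.commutes, Algebra.algebraMap_self, RingHom.id_apply]
    exact mul_comm _ _
  have h3 : β = 0 := by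
    have h4 : (U * A).mulVec β = β := by rw [hUA, Matrix.one_mulVec]
    rw [← h4, ← Matrix.mulVec_mulVec, h2, Matrix.mulVec_zero]
  have h4 : ∑ i, algebraMap ℂ B (β i) * G.e i = 0 := by
    refine Finset.sum_eq_zero fun i _ => ?_
    rw [h3, Pi.zero_apply, map_zero, zero_mul]
  rwa [h4, sub_zero] at h1

/-- an approximate idempotent -/
theorem cl58_exists_eps [Nontrivial B] {q : Fin n → ℂ} (hD : eval q G.D ≠ 0) {a : Fin n → ℕ}
    (ha : ∀ j, 1 ≤ a j) (N : ℕ) {χ : Pt B} (hχ : proj G.y χ = q) : ∃ ε : B,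
    1 - ε ∈ cl58I G a N χ ∧ ∀ χ' : Pt B, proj G.y χ' = q → χ ≠ χ' → χ' ε = 0 := by
  refine ⟨1 - (1 - cl58s G χ) ^ N, ?_, fun χ' hχ' hne => ?_⟩
  · rw [sub_sub_cancel, cl58_mem_I, cl58_vanAt G hχ]
    refine ⟨cl58s G χ ^ N, ?_, ?_⟩
    · rw [map_pow, (cl58_s_val G hD hχ hχ).1 rfl, one_pow]
      exact one_ne_zero
    · rw [← mul_pow]
      refine cl58_pow_mem G ha q (cl58_mem_of_val G hD fun χ' hχ' => ?_) N
      rw [map_mul, map_sub, map_one]
      by_cases h : χ = χ'
      · rw [(cl58_s_val G hD hχ hχ').1 h, sub_self, mul_zero]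
      · rw [(cl58_s_val G hD hχ hχ').2 h, zero_mul]
  · rw [map_sub, map_one, map_pow, map_sub, map_one, (cl58_s_val G hD hχ hχ').2 hne, sub_zero,
      one_pow, sub_self]

theorem cl58_mul_mem_I {a : Fin n → ℕ} {N M : ℕ} {q : Fin n → ℂ} {χ : Pt B}
    (hχ : proj G.y χ = q) {b c : B} (hb : b ∈ cl58W G a N q) (hc : c ∈ cl58I G a M χ) :
    b * c ∈ cl58I G a (N + M) χ := by
  rw [cl58_mem_I, cl58_vanAt G hχ] at hc ⊢
  obtain ⟨t, h1, h2⟩ := hc
  refine ⟨t, h1, ?_⟩
  have h3 : t * (b * c) = b * (t * c) := by ring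
  rw [h3]
  exact cl58_W_le_mul G hb h2

/-- the monomials of weight less than `M` -/
def cl58Sp (a : Fin n → ℕ) (M : ℕ) (q : Fin n → ℂ) : Submodule ℂ B :=
  Submodule.span ℂ (range fun m : cl58S a M => ∏ j, cl58t G q j ^ m.1 j)

theorem cl58_span [Nontrivial B] {q : Fin n → ℂ} (hD : eval q G.D ≠ 0) {a : Fin n → ℕ}
    (ha : ∀ j, 1 ≤ a j) {χ : Pt B} (hχ : proj G.y χ = q) (M : ℕ) :
    ∀ F : B, F ∈ cl58Sp G a M q ⊔ (cl58I G a M χ).restrictScalars ℂ := by
  classical
  induction M using Nat.strong_induction_on with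
  | _ M ih =>
    intro F
    rcases Nat.eq_zero_or_pos M with hM | hM
    · subst hM
      refine Submodule.mem_sup_right ?_
      show F ∈ cl58I G a 0 χ
      rw [cl58_mem_I, cl58_vanAt G hχ]
      refine ⟨1, by rw [map_one]; exact one_ne_zero, ?_⟩
      have h1 : (1 : B) ∈ cl58W G a 0 q := Ideal.subset_span ⟨0, by simp, by simp⟩
      rw [one_mul, ← mul_one F]
      exact Ideal.mul_mem_left _ _ h1
    · obtain ⟨ε, hε1, hε2⟩ := cl58_exists_eps G hD ha M hχ
      set F₀ : B := F - algebraMap ℂ B (χ F) with hF₀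
      have hF₀χ : χ F₀ = 0 := by
        rw [hF₀, map_sub, AlgHom.commutes, Algebra.algebraMap_self, RingHom.id_apply, sub_self]
      have h1 : ε * F₀ ∈ Ideal.span (range (cl58t G q)) := by
        refine cl58_mem_of_val G hD fun χ' hχ' => ?_
        rw [map_mul]
        by_cases h : χ = χ'
        · rw [← h, hF₀χ, mul_zero]
        · rw [hε2 χ' hχ' h, zero_mul]
      obtain ⟨c, hc⟩ := (Ideal.mem_span_range_iff_exists_fun).1 h1
      have h2 : F = (χ F) • (1 : B) + (∑ j, c j * cl58t G q j) + (1 - ε) * F₀ := by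
        rw [hc, hF₀, Algebra.smul_def]
        ring
      rw [h2]
      refine Submodule.add_mem _ (Submodule.add_mem _ ?_ ?_) ?_
      · refine Submodule.smul_mem _ _ (Submodule.mem_sup_left (Submodule.subset_span ?_))
        exact ⟨⟨0, by simpa using hM⟩, by simp⟩
      · refine Submodule.sum_mem _ fun j _ => ?_
        rcases le_or_gt M (a j) with h3 | h3
        · refine Submodule.mem_sup_right ?_
          show c j * cl58t G q j ∈ cl58I G a M χ
          refine Ideal.mul_mem_left _ _ (cl58_W_le_I G hχ (cl58_W_anti G h3 q ?_))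
          exact cl58_t_mem G q j
        · have h4 := ih (M - a j) (by have := ha j; omega) (c j)
          obtain ⟨u, hu, v, hv, huv⟩ := Submodule.mem_sup.1 h4
          rw [← huv, add_mul]
          refine Submodule.add_mem _ (Submodule.mem_sup_left ?_) (Submodule.mem_sup_right ?_)
          · unfold cl58Sp at hu
            refine Submodule.span_induction
              (p := fun u _ => u * cl58t G q j ∈ cl58Sp G a M q) ?_ ?_ ?_ ?_ hu
            · rintro _ ⟨m, rfl⟩
              refine Submodule.subset_span ⟨⟨(m.1 + Pi.single j 1 : Fin n → ℕ), ?_⟩, ?_⟩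
              · have h5 : ∑ j', a j' * (m.1 + Pi.single j 1 : Fin n → ℕ) j' =
                  (∑ j', a j' * m.1 j') + a j := by
                  simp only [Pi.add_apply, mul_add, Finset.sum_add_distrib]
                  congr 1
                  rw [Finset.sum_eq_single j]
                  · simp
                  · intro b _ hb
                    simp [Pi.single_eq_of_ne hb]
                  · simp
                rw [h5]
                have := m.2
                omega
              · simp only [Pi.add_apply, pow_add, Finset.prod_mul_distrib]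
                congr 1
                rw [Finset.prod_eq_single j]
                · simp
                · intro b _ hb
                  simp [Pi.single_eq_of_ne hb]
                · simp
            · rw [zero_mul]
              exact Submodule.zero_mem _
            · intro x y _ _ hx hy
              rw [add_mul]
              exact Submodule.add_mem _ hx hy
            · intro r x _ hx
              rw [smul_mul_assoc]
              exact Submodule.smul_mem _ _ hx
          · show v * cl58t G q j ∈ cl58I G a M χ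
            have h5 := cl58_mul_mem_I G hχ (cl58_t_mem G (a := a) q j) hv
            rw [mul_comm]
            have h6 : a j + (M - a j) = M := by omega
            rwa [h6] at h5
      · refine Submodule.mem_sup_right ?_
        show (1 - ε) * F₀ ∈ cl58I G a M χ
        exact Ideal.mul_mem_right _ _ hε1

theorem cl58_finrank_I [Nontrivial B] {q : Fin n → ℂ} (hD : eval q G.D ≠ 0) {a : Fin n → ℕ}
    (ha : ∀ j, 1 ≤ a j) {χ : Pt B} (hχ : proj G.y χ = q) (N : ℕ) :
    Module.Finite ℂ (B ⧸ cl58I G a N χ) ∧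
      Module.finrank ℂ (B ⧸ cl58I G a N χ) ≤ Nat.card (cl58S a N) := by
  classical
  have := cl58_finite_S ha N
  have := Fintype.ofFinite (cl58S a N)
  let f : (cl58S a N → ℂ) →ₗ[ℂ] (B ⧸ cl58I G a N χ) :=
    (Fintype.linearCombination ℂ fun m : cl58S a N =>
      (Ideal.Quotient.mkₐ ℂ (cl58I G a N χ)) (∏ j, cl58t G q j ^ m.1 j))
  have hf : Function.Surjective f := by
    intro z
    obtain ⟨F, rfl⟩ := Ideal.Quotient.mkₐ_surjective ℂ (cl58I G a N χ) z
    obtain ⟨u, hu, v, hv, huv⟩ := Submodule.mem_sup.1 (cl58_span G hD ha hχ N F)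
    have h1 : (Ideal.Quotient.mkₐ ℂ (cl58I G a N χ)) F =
        (Ideal.Quotient.mkₐ ℂ (cl58I G a N χ)) u := by
      rw [← huv, map_add]
      have h2 : (Ideal.Quotient.mkₐ ℂ (cl58I G a N χ)) v = 0 := by
        show Ideal.Quotient.mk _ v = 0
        rw [Ideal.Quotient.eq_zero_iff_mem]
        exact hv
      rw [h2, add_zero]
    obtain ⟨w, hw⟩ := (Submodule.mem_span_range_iff_exists_fun ℂ).1 hu
    refine ⟨w, ?_⟩
    rw [h1, ← hw, map_sum]
    show Fintype.linearCombination ℂ _ w = _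
    rw [Fintype.linearCombination_apply]
    refine Finset.sum_congr rfl fun m _ => ?_
    rw [map_smul]
  have hfin : Module.Finite ℂ (B ⧸ cl58I G a N χ) := Module.Finite.of_surjective f hf
  refine ⟨hfin, ?_⟩
  have h1 := LinearMap.finrank_le_finrank_of_surjective hf
  rwa [Module.finrank_fintype_fun_eq_card, ← Nat.card_eq_fintype_card] at h1

theorem cl58_W_of_forall [Nontrivial B] {q : Fin n → ℂ} (hD : eval q G.D ≠ 0) {a : Fin n → ℕ}
    (ha : ∀ j, 1 ≤ a j) {N : ℕ} {F : B}
    (hF : ∀ χ : Pt B, proj G.y χ = q → F ∈ cl58I G a N χ) : F ∈ cl58W G a N q := by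
  classical
  have : Fintype {χ : Pt B | proj G.y χ = q} := (cl58_fin G hD).fintype
  have h1 : ∀ χ : {χ : Pt B | proj G.y χ = q}, ∃ t : B, χ.1 t ≠ 0 ∧ t * F ∈ cl58W G a N q :=
    fun χ => (cl58_vanAt G χ.2 F).1 (hF χ.1 χ.2)
  choose t ht1 ht2 using h1
  set u : B := ∑ χ : {χ : Pt B | proj G.y χ = q},
    algebraMap ℂ B (χ.1 (t χ))⁻¹ * cl58s G χ.1 * t χ with hu
  have huF : u * F ∈ cl58W G a N q := by
    rw [hu, Finset.sum_mul]
    refine Ideal.sum_mem _ fun χ _ => ?_
    rw [mul_assoc]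
    exact Ideal.mul_mem_left _ _ (ht2 χ)
  have h2 : 1 - u ∈ Ideal.span (range (cl58t G q)) := by
    refine cl58_mem_of_val G hD fun χ' hχ' => ?_
    rw [map_sub, map_one, hu, map_sum, Finset.sum_eq_single ⟨χ', hχ'⟩]
    · rw [map_mul, map_mul, AlgHom.commutes, Algebra.algebraMap_self, RingHom.id_apply,
        (cl58_s_val G hD hχ' hχ').1 rfl, mul_one, inv_mul_cancel₀ (ht1 _), sub_self]
    · intro χ _ hne
      rw [map_mul, map_mul, (cl58_s_val G hD χ.2 hχ').2 (fun h => hne (Subtype.ext h)), mul_zero,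
        zero_mul]
    · intro h
      exact absurd (Finset.mem_univ _) h
  have h3 := cl58_pow_mem G ha q h2 N
  have h4 : ∃ w : B, 1 - (1 - u) ^ N = w * u := by
    have h5 : (1 - u) - 1 ∣ (1 - u) ^ N - 1 ^ N := sub_dvd_pow_sub_pow _ _ _
    obtain ⟨w, hw⟩ := h5
    refine ⟨w, ?_⟩
    rw [one_pow] at hw
    linear_combination -hw
  obtain ⟨w, hw⟩ := h4
  have h5 : F = (1 - u) ^ N * F + w * (u * F) := by
    linear_combination F * hw
  rw [h5]
  exact Ideal.add_mem _ (Ideal.mul_mem_right _ _ h3) (Ideal.mul_mem_left _ _ huF)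

/-- **Codimension of the functions vanishing at two points.** -/
theorem cl58_codim [Nontrivial B] {q : Fin n → ℂ} (hD : eval q G.D ≠ 0) {a : Fin n → ℕ}
    (ha : ∀ j, 1 ≤ a j) (N : ℕ) {χ₀ χ₁ : Pt B} (h₀ : proj G.y χ₀ = q) (h₁ : proj G.y χ₁ = q)
    (hne : χ₀ ≠ χ₁) :
    Module.Finite ℂ (B ⧸ (cl58I G a N χ₀ ⊓ cl58I G a N χ₁)) ∧
      Module.finrank ℂ (B ⧸ (cl58I G a N χ₀ ⊓ cl58I G a N χ₁)) = 2 * Nat.card (cl58S a N) := by
  classical
  have : Fintype {χ : Pt B | proj G.y χ = q} := (cl58_fin G hD).fintype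
  have := cl58_finite_S ha N
  have := Fintype.ofFinite (cl58S a N)
  let ι : Type := ↥{χ : Pt B | proj G.y χ = q}
  have hcard : Fintype.card ι = d := by
    rw [← G.card q hD, ← Nat.card_eq_fintype_card]
    rfl
  have : ∀ χ : ι, Module.Finite ℂ (B ⧸ cl58I G a N χ.1) := fun χ =>
    (cl58_finrank_I G hD ha χ.2 N).1
  let L : B →ₗ[ℂ] (∀ χ : ι, B ⧸ cl58I G a N χ.1) :=
    LinearMap.pi fun χ => (Ideal.Quotient.mkₐ ℂ (cl58I G a N χ.1)).toLinearMap
  have hL : ∀ b χ, L b χ = Ideal.Quotient.mk (cl58I G a N χ.1) b := fun b χ => rfl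
  have hker : LinearMap.ker L = LinearMap.ker (cl58L G a N q) := by
    ext b
    rw [LinearMap.mem_ker, LinearMap.mem_ker, ← cl58_mem_W_iff]
    constructor
    · intro h
      refine cl58_W_of_forall G hD ha fun χ hχ => ?_
      have h2 := congrFun h ⟨χ, hχ⟩
      rw [hL] at h2
      exact (Ideal.Quotient.eq_zero_iff_mem).1 h2
    · intro h
      funext χ
      rw [hL]
      exact (Ideal.Quotient.eq_zero_iff_mem).2 (cl58_W_le_I G χ.2 h)
  have hr1 : Module.finrank ℂ (LinearMap.range L) = d * Fintype.card (cl58S a N) := by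
    have h2 := (LinearMap.quotKerEquivRange L).finrank_eq
    have h3 := (LinearMap.quotKerEquivOfSurjective (cl58L G a N q)
      (cl58_L_surj G a ha N q)).finrank_eq
    rw [← h2, hker, h3, Module.finrank_fintype_fun_eq_card, Fintype.card_prod, Fintype.card_fin]
  have hsum : Module.finrank ℂ (∀ χ : ι, B ⧸ cl58I G a N χ.1) =
      ∑ χ : ι, Module.finrank ℂ (B ⧸ cl58I G a N χ.1) := Module.finrank_pi_fintype ℂ
  have hle : ∀ χ : ι, Module.finrank ℂ (B ⧸ cl58I G a N χ.1) ≤ Fintype.card (cl58S a N) := by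
    intro χ
    rw [← Nat.card_eq_fintype_card]
    exact (cl58_finrank_I G hD ha χ.2 N).2
  have hle2 : ∑ χ : ι, Module.finrank ℂ (B ⧸ cl58I G a N χ.1) ≤
      d * Fintype.card (cl58S a N) := by
    calc ∑ χ : ι, Module.finrank ℂ (B ⧸ cl58I G a N χ.1) ≤ ∑ _χ : ι, Fintype.card (cl58S a N) :=
          Finset.sum_le_sum fun χ _ => hle χ
      _ = d * Fintype.card (cl58S a N) := by
          rw [Finset.sum_const, Finset.card_univ, hcard, smul_eq_mul]
  have hge : Module.finrank ℂ (LinearMap.range L) ≤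
      Module.finrank ℂ (∀ χ : ι, B ⧸ cl58I G a N χ.1) := Submodule.finrank_le _
  have heq : ∑ χ : ι, Module.finrank ℂ (B ⧸ cl58I G a N χ.1) = d * Fintype.card (cl58S a N) := by
    rw [hr1, hsum] at hge
    exact le_antisymm hle2 hge
  have hrange : LinearMap.range L = ⊤ := by
    apply Submodule.eq_top_of_finrank_eq
    rw [hr1, hsum, heq]
  have heach : ∀ χ : ι, Module.finrank ℂ (B ⧸ cl58I G a N χ.1) = Fintype.card (cl58S a N) := by
    intro χ
    by_contra hcon
    have hlt : ∑ χ : ι, Module.finrank ℂ (B ⧸ cl58I G a N χ.1) < ∑ _χ : ι,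
        Fintype.card (cl58S a N) :=
      Finset.sum_lt_sum (fun χ _ => hle χ) ⟨χ, Finset.mem_univ _, lt_of_le_of_ne (hle χ) hcon⟩
    rw [heq, Finset.sum_const, Finset.card_univ, hcard, smul_eq_mul] at hlt
    exact lt_irrefl _ hlt
  -- two points
  have := (cl58_finrank_I G hD ha h₀ N).1
  have := (cl58_finrank_I G hD ha h₁ N).1
  let M : B →ₗ[ℂ] (B ⧸ cl58I G a N χ₀) × (B ⧸ cl58I G a N χ₁) :=
    (Ideal.Quotient.mkₐ ℂ (cl58I G a N χ₀)).toLinearMap.prod
      (Ideal.Quotient.mkₐ ℂ (cl58I G a N χ₁)).toLinearMap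
  have hMsurj : Function.Surjective M := by
    rintro ⟨u, v⟩
    obtain ⟨b₀, hb₀⟩ := Ideal.Quotient.mk_surjective u
    obtain ⟨b₁, hb₁⟩ := Ideal.Quotient.mk_surjective v
    have h2 : (fun χ : ι => if χ.1 = χ₀ then Ideal.Quotient.mk (cl58I G a N χ.1) b₀ else
        Ideal.Quotient.mk (cl58I G a N χ.1) b₁) ∈ LinearMap.range L := by
      rw [hrange]
      exact Submodule.mem_top
    obtain ⟨b, hb⟩ := h2
    refine ⟨b, Prod.ext ?_ ?_⟩
    · have h3 := congrFun hb ⟨χ₀, h₀⟩
      rw [hL] at h3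
      simp only [if_true] at h3
      rw [← hb₀]
      exact h3
    · have h3 := congrFun hb ⟨χ₁, h₁⟩
      rw [hL] at h3
      simp only [if_neg (Ne.symm hne)] at h3
      rw [← hb₁]
      exact h3
  have hMker : LinearMap.ker M =
      (cl58I G a N χ₀ ⊓ cl58I G a N χ₁).restrictScalars ℂ := by
    ext b
    rw [LinearMap.mem_ker]
    show (Ideal.Quotient.mk (cl58I G a N χ₀) b, Ideal.Quotient.mk (cl58I G a N χ₁) b) = 0 ↔ _
    rw [Prod.mk_eq_zero, Ideal.Quotient.eq_zero_iff_mem, Ideal.Quotient.eq_zero_iff_mem]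
    rfl
  let eqv := (LinearMap.quotKerEquivOfSurjective M hMsurj)
  have hfin2 : Module.finrank ℂ (B ⧸ LinearMap.ker M) = 2 * Nat.card (cl58S a N) := by
    rw [eqv.finrank_eq, Module.finrank_prod, heach ⟨χ₀, h₀⟩, heach ⟨χ₁, h₁⟩,
      Nat.card_eq_fintype_card]
    ring
  have hfin3 : Module.Finite ℂ (B ⧸ LinearMap.ker M) := Module.Finite.equiv eqv.symm
  rw [hMker] at hfin2 hfin3
  exact ⟨hfin3, hfin2⟩

end Pool.Agent.Odp2
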