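import Pool.Agent.Odp2.Defs
import Pool.Agent.Odp2.Lim.Ideal
import Pool.Agent.Odp2.Lim.ColengthAux

open scoped ContDiff Topology ENNReal NNReal WithZero
open Set MeasureTheory Filter MvPolynomial Pool.Agent.ODP

namespace Pool.Agent.Odp2

/-! ### Limits of relations -/

/-- normalised nonzero vectors have a nonzero limit. -/
theorem cl58_lim {κ : Type} [Fintype κ] {P : ℕ → (κ → ℂ) → Prop}
    (hP : ∀ ν c, P ν c → ∀ t : ℂ, P ν (t • c))
    (h : ∀ᶠ ν in (hyperfilter ℕ : Filter ℕ), ∃ c : κ → ℂ, c ≠ 0 ∧ P ν c) :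
    ∃ c' : κ → ℂ, c' ≠ 0 ∧ ∃ c : ℕ → κ → ℂ, (∀ᶠ ν in (hyperfilter ℕ : Filter ℕ), P ν (c ν)) ∧
      Tendsto c (hyperfilter ℕ : Filter ℕ) (nhds c') := by
  classical
  have h1 : ∀ᶠ ν in (hyperfilter ℕ : Filter ℕ), ∃ c : κ → ℂ, ‖c‖ = 1 ∧ P ν c := by
    filter_upwards [h] with ν hν
    obtain ⟨c, hc, hPc⟩ := hν
    refine ⟨((‖c‖⁻¹ : ℝ) : ℂ) • c, ?_, hP ν c hPc _⟩
    rw [norm_smul, Complex.norm_real, norm_inv, norm_norm, inv_mul_cancel₀ (norm_ne_zero_iff.2 hc)]
  let c : ℕ → κ → ℂ := fun ν => if h : ∃ c : κ → ℂ, ‖c‖ = 1 ∧ P ν c then h.choose else 0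
  have h2 : ∀ᶠ ν in (hyperfilter ℕ : Filter ℕ), ‖c ν‖ = 1 ∧ P ν (c ν) := by
    filter_upwards [h1] with ν hν
    have h3 : c ν = hν.choose := dif_pos hν
    rw [h3]
    exact hν.choose_spec
  have h3 : Metric.sphere (0 : κ → ℂ) 1 ∈ (hyperfilter ℕ).map c := by
    refine Ultrafilter.mem_map.2 (h2.mono fun ν hν => ?_)
    rw [mem_sphere_zero_iff_norm]
    exact hν.1
  obtain ⟨c', hc', hlim⟩ := (isCompact_sphere (0 : κ → ℂ) 1).ultrafilter_le_nhds
    ((hyperfilter ℕ).map c) (le_principal_iff.2 h3)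
  refine ⟨c', ?_, c, h2.mono fun ν h => h.2, hlim⟩
  rintro rfl
  simp at hc'

/-! ### Convergence of the expansions at `q ν` -/

section

variable {n : ℕ} {l : Filter ℕ}

theorem cl58_tendsP_pow {P : ℕ → MvPolynomial (Fin n) ℂ} {P' : MvPolynomial (Fin n) ℂ}
    (h : TendsP l P P') (k : ℕ) : TendsP l (fun ν => P ν ^ k) (P' ^ k) := by
  induction k with
  | zero => simpa using tendsP_const (l := l) (1 : MvPolynomial (Fin n) ℂ)
  | succ k ih =>
    simp only [pow_succ]
    exact ih.mul h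

theorem cl58_tendsP_prod {ι : Type*} (s : Finset ι) {P : ι → ℕ → MvPolynomial (Fin n) ℂ}
    {P' : ι → MvPolynomial (Fin n) ℂ} (h : ∀ i ∈ s, TendsP l (P i) (P' i)) :
    TendsP l (fun ν => ∏ i ∈ s, P i ν) (∏ i ∈ s, P' i) := by
  classical
  induction s using Finset.induction_on with
  | empty => simpa using tendsP_const (l := l) (1 : MvPolynomial (Fin n) ℂ)
  | insert a s ha ih =>
    simp only [Finset.prod_insert ha]
    exact (h a (Finset.mem_insert_self a s)).mul
      (ih fun i hi => h i (Finset.mem_insert_of_mem hi))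

theorem cl58_sum_form {P : MvPolynomial (Fin n) ℂ} {Λ : Finset (Fin n →₀ ℕ)}
    (hΛ : P.support ⊆ Λ) (q : Fin n → ℂ) :
    cl58sh q P = ∑ m ∈ Λ, C (coeff m P) * ∏ j, (X j + C (q j)) ^ m j := by
  have h1 : cl58sh q P = ∑ m ∈ P.support, C (coeff m P) * ∏ j, (X j + C (q j)) ^ m j := by
    conv_lhs => rw [P.as_sum]
    rw [map_sum]
    refine Finset.sum_congr rfl fun m _ => ?_
    rw [cl58sh, aeval_monomial, Finsupp.prod_fintype]
    · rfl
    · intro j
      exact pow_zero _
  rw [h1]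
  refine Finset.sum_subset hΛ fun m _ hm => ?_
  rw [notMem_support_iff.1 hm, map_zero, zero_mul]

theorem cl58_sh_zero (P : MvPolynomial (Fin n) ℂ) : cl58sh 0 P = P := by
  have h : cl58sh (0 : Fin n → ℂ) = AlgHom.id ℂ _ := by
    apply MvPolynomial.algHom_ext
    intro j
    simp [cl58sh]
  rw [h]
  rfl

theorem cl58_tendsto_sh {P : ℕ → MvPolynomial (Fin n) ℂ}
    {P' : MvPolynomial (Fin n) ℂ} {q : ℕ → Fin n → ℂ} (h : TendsP l P P')
    (hq : Tendsto q l (nhds 0)) (m : Fin n →₀ ℕ) :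
    Tendsto (fun ν => coeff m (cl58sh (q ν) (P ν))) l (nhds (coeff m P')) := by
  classical
  obtain ⟨⟨Λ, hΛ⟩, hc⟩ := h
  have h1 : TendsP l (fun ν => ∑ m ∈ Λ ∪ P'.support,
      C (coeff m (P ν)) * ∏ j, (X j + C (q ν j)) ^ m j)
      (∑ m ∈ Λ ∪ P'.support, C (coeff m P') * ∏ j, (X j + C ((0 : Fin n → ℂ) j)) ^ m j) := by
    refine TendsP.sum _ fun m _ => (tendsP_C (hc m)).mul (cl58_tendsP_prod _ fun j _ =>
      cl58_tendsP_pow ((tendsP_const _).add (tendsP_C ?_)) _)
    exact tendsto_pi_nhds.1 hq j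
  rw [← cl58_sum_form Finset.subset_union_right, cl58_sh_zero] at h1
  refine (h1.2 m).congr' ?_
  filter_upwards [hΛ] with ν hν
  rw [cl58_sum_form (hν.trans Finset.subset_union_left)]

end

section

variable {n d : ℕ} {B : Type} [CommRing B] [Algebra ℂ B] {G : Germ n d B}

theorem cl58_tendsto_L {F : ℕ → B} {F' : B} {q : ℕ → Fin n → ℂ} (h : TendsB G F F')
    (hq : Tendsto q (hyperfilter ℕ : Filter ℕ) (nhds 0)) (a : Fin n → ℕ) (N : ℕ) :
    Tendsto (fun ν => cl58L G a N (q ν) (F ν)) (hyperfilter ℕ : Filter ℕ)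
      (nhds (cl58L G a N 0 F')) := by
  rw [tendsB_iff] at h
  rw [tendsto_pi_nhds]
  intro im
  have h1 := cl58_tendsto_sh (h im.1) hq (cl58x im.2.1)
  have h2 : cl58L G a N 0 F' im = coeff (cl58x im.2.1) (G.cf F' im.1) := by
    show coeff (cl58x im.2.1) (cl58sh 0 (G.cf F' im.1)) = _
    rw [cl58_sh_zero]
  rw [h2]
  exact h1

theorem cl58_tendsB_sum {κ : Type*} (t : Finset κ) {F : κ → ℕ → B} {F' : κ → B}
    (h : ∀ i ∈ t, TendsB G (F i) (F' i)) :
    TendsB G (fun ν => ∑ i ∈ t, F i ν) (∑ i ∈ t, F' i) := by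
  classical
  induction t using Finset.induction_on with
  | empty => simpa using tendsB_const (G := G) (0 : B)
  | insert a s ha ih =>
    simp only [Finset.sum_insert ha]
    exact (h a (Finset.mem_insert_self a s)).add
      (ih fun i hi => h i (Finset.mem_insert_of_mem hi))

variable (G)

/-- the section of `cl58L` -/
noncomputable def cl58R (a : Fin n → ℕ) (N : ℕ) (q : Fin n → ℂ) [Fintype (cl58S a N)] :
    (Fin d × cl58S a N → ℂ) →ₗ[ℂ] B where
  toFun v := ∑ i, aeval (cl58t G q) (∑ m : cl58S a N, monomial (cl58x m.1) (v (i, m))) * G.e i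
  map_add' v w := by
    rw [← Finset.sum_add_distrib]
    refine Finset.sum_congr rfl fun i _ => ?_
    simp only [Pi.add_apply, map_add, Finset.sum_add_distrib, add_mul]
  map_smul' c v := by
    rw [RingHom.id_apply, Finset.smul_sum]
    refine Finset.sum_congr rfl fun i _ => ?_
    rw [← smul_mul_assoc, ← map_smul, Finset.smul_sum]
    congr 2
    refine Finset.sum_congr rfl fun m _ => ?_
    rw [smul_monomial]
    rfl

theorem cl58_L_R (a : Fin n → ℕ) (N : ℕ) (q : Fin n → ℂ) [Fintype (cl58S a N)]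
    (v : Fin d × cl58S a N → ℂ) : cl58L G a N q (cl58R G a N q v) = v := by
  classical
  funext im
  have h1 := cl58_K_unique G q (b := cl58R G a N q v)
    (c := fun i => ∑ m : cl58S a N, monomial (cl58x m.1) (v (i, m))) rfl
  show coeff (cl58x im.2.1) (cl58K G q (cl58R G a N q v) im.1) = v im
  rw [← h1]
  show coeff (cl58x im.2.1) (∑ m : cl58S a N, monomial (cl58x m.1) (v (im.1, m))) = v im
  rw [coeff_sum, Finset.sum_eq_single im.2]
  · rw [coeff_monomial, if_pos rfl]
  · intro m _ hm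
    rw [coeff_monomial, if_neg]
    intro h
    exact hm (Subtype.ext (Finsupp.equivFunOnFinite.symm.injective h))
  · intro h
    exact absurd (Finset.mem_univ _) h

theorem cl58_sub_mem (a : Fin n → ℕ) (N : ℕ) (q : Fin n → ℂ) [Fintype (cl58S a N)]
    (b : B) : b - cl58R G a N q (cl58L G a N q b) ∈ cl58W G a N q := by
  rw [cl58_mem_W_iff, map_sub, cl58_L_R, sub_self]

/-- An ideal containing `W` is determined by its trace on the coordinates. -/
theorem cl58_finrank (a : Fin n → ℕ) (N : ℕ) (q : Fin n → ℂ) [Fintype (cl58S a N)]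
    {I : Ideal B} (hI : cl58W G a N q ≤ I) :
    Module.Finite ℂ (B ⧸ I) ∧ Module.finrank ℂ (B ⧸ I) +
      Module.finrank ℂ ((I.restrictScalars ℂ).comap (cl58R G a N q)) =
        d * Fintype.card (cl58S a N) := by
  let f : (Fin d × cl58S a N → ℂ) →ₗ[ℂ] B ⧸ I :=
    (Ideal.Quotient.mkₐ ℂ I).toLinearMap.comp (cl58R G a N q)
  have hf : Function.Surjective f := by
    intro z
    obtain ⟨b, rfl⟩ := Ideal.Quotient.mk_surjective z
    refine ⟨cl58L G a N q b, ?_⟩
    show Ideal.Quotient.mk I _ = Ideal.Quotient.mk I b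
    symm
    rw [Ideal.Quotient.eq]
    exact hI (cl58_sub_mem G a N q b)
  have hfin : Module.Finite ℂ (B ⧸ I) := Module.Finite.of_surjective f hf
  refine ⟨hfin, ?_⟩
  have h1 := LinearMap.finrank_range_add_finrank_ker f
  have h2 : LinearMap.ker f = (I.restrictScalars ℂ).comap (cl58R G a N q) := by
    ext v
    rw [LinearMap.mem_ker]
    show Ideal.Quotient.mk I _ = 0 ↔ _
    rw [Ideal.Quotient.eq_zero_iff_mem]
    rfl
  rw [h2, LinearMap.range_eq_top.2 hf, finrank_top, Module.finrank_fintype_fun_eq_card,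
    Fintype.card_prod, Fintype.card_fin] at h1
  exact h1

end

variable {n d : ℕ} {B : Type} [CommRing B] [IsDomain B] [Algebra ℂ B] {G : Germ n d B} {x : Pt B}
  (p : Pts G x)

theorem cl58_W_zero_le (a : Fin n → ℕ) (N : ℕ) : cl58W G a N 0 ≤ JI p a N := by
  unfold cl58W
  rw [Ideal.span_le]
  rintro _ ⟨m, hm, rfl⟩
  have h1 := mono_mem_JI p a hm
  have h2 : ∏ j, cl58t G 0 j ^ m j = ∏ j, G.y j ^ m j := by
    refine Finset.prod_congr rfl fun j _ => ?_
    simp [cl58t]
  rw [h2]
  exact h1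

/-- **The colength of `J_N`** is the one of the functions vanishing to the order `N` at two
points. -/
theorem colength_JI {a : Fin n → ℕ} (ha : ∀ j, 1 ≤ a j) (N : ℕ) :
    colength ℂ (JI p a N) = 2 * {m : Fin n → ℕ | ∑ j, a j * m j < N}.ncard := by
  classical
  have := cl58_finite_S ha N
  have := Fintype.ofFinite (cl58S a N)
  have hs : {m : Fin n → ℕ | ∑ j, a j * m j < N}.ncard = Nat.card (cl58S a N) := rfl
  rw [hs]
  show Module.finrank ℂ (B ⧸ JI p a N) = _
  set I : ℕ → Ideal B := fun ν => cl58I G a N (p.p 0 ν) ⊓ cl58I G a N (p.p 1 ν) with hI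
  have hmem : ∀ ν b, b ∈ I ν ↔ ∀ i, VanAt G a N (p.p i ν) b := by
    intro ν b
    rw [Fin.forall_fin_two]
    rfl
  have hcod : ∀ ν, Module.Finite ℂ (B ⧸ I ν) ∧ Module.finrank ℂ (B ⧸ I ν) =
      2 * Nat.card (cl58S a N) := fun ν =>
    cl58_codim G (p.D_ne ν) ha N (p.proj_p 0 ν) (p.proj_p 1 ν) (p.ne ν)
  obtain ⟨hJfin, hJ⟩ := cl58_finrank G a N 0 (cl58_W_zero_le p a N)
  refine le_antisymm ?_ ?_
  · -- upper bound
    by_contra hcon
    push Not at hcon
    let e := Module.finBasis ℂ (B ⧸ JI p a N)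
    have hlt : 2 * Nat.card (cl58S a N) + 1 ≤ Module.finrank ℂ (B ⧸ JI p a N) := hcon
    choose v hv using fun k : Fin (2 * Nat.card (cl58S a N) + 1) =>
      Ideal.Quotient.mk_surjective (e (Fin.castLE hlt k))
    obtain ⟨c', hc', c, hc, hlim⟩ := cl58_lim (κ := Fin (2 * Nat.card (cl58S a N) + 1))
      (P := fun ν c => ∑ k, algebraMap ℂ B (c k) * v k ∈ I ν)
      (fun ν c h t => by
        have h1 : ∑ k, algebraMap ℂ B ((t • c) k) * v k =
            algebraMap ℂ B t * ∑ k, algebraMap ℂ B (c k) * v k := by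
          rw [Finset.mul_sum]
          refine Finset.sum_congr rfl fun k _ => ?_
          rw [Pi.smul_apply, smul_eq_mul, map_mul, mul_assoc]
        rw [h1]
        exact Ideal.mul_mem_left _ _ h)
      (Eventually.of_forall fun ν => by
        have := (hcod ν).1
        let f : (Fin (2 * Nat.card (cl58S a N) + 1) → ℂ) →ₗ[ℂ] B ⧸ I ν :=
          Fintype.linearCombination ℂ fun k => Ideal.Quotient.mk (I ν) (v k)
        have h1 : LinearMap.ker f ≠ ⊥ := by
          refine LinearMap.ker_ne_bot_of_finrank_lt ?_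
          rw [(hcod ν).2, Module.finrank_fintype_fun_eq_card, Fintype.card_fin]
          exact Nat.lt_succ_self _
        obtain ⟨c, hc, hc0⟩ := Submodule.exists_mem_ne_zero_of_ne_bot h1
        refine ⟨c, hc0, ?_⟩
        rw [LinearMap.mem_ker] at hc
        rw [← Ideal.Quotient.eq_zero_iff_mem, map_sum, ← hc]
        show _ = Fintype.linearCombination ℂ _ c
        rw [Fintype.linearCombination_apply]
        refine Finset.sum_congr rfl fun k _ => ?_
        rw [← Algebra.smul_def]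
        rfl)
    have hin : ∑ k, algebraMap ℂ B (c' k) * v k ∈ JI p a N := by
      rw [mem_JI]
      refine ⟨fun ν => ∑ k, algebraMap ℂ B (c ν k) * v k, hc.mono fun ν h i =>
        (hmem ν _).1 h i, ?_⟩
      refine cl58_tendsB_sum _ fun k _ => TendsB.algebraMap_mul ?_ (tendsB_const _)
      exact tendsto_pi_nhds.1 hlim k
    have h2 : ∑ k, c' k • e (Fin.castLE hlt k) = 0 := by
      rw [← (Ideal.Quotient.eq_zero_iff_mem).2 hin, map_sum]
      refine Finset.sum_congr rfl fun k _ => ?_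
      rw [← Algebra.smul_def, ← hv k]
      rfl
    have h3 : LinearIndependent ℂ fun k => e (Fin.castLE hlt k) :=
      e.linearIndependent.comp _ (Fin.castLE_injective hlt)
    rw [Fintype.linearIndependent_iff] at h3
    exact hc' (funext fun k => h3 c' h2 k)
  · -- lower bound
    by_contra hcon
    push Not at hcon
    set K' := ((JI p a N).restrictScalars ℂ).comap (cl58R G a N 0) with hK'
    let e := Module.finBasis ℂ K'
    have hF : ∀ k, ∃ F : ℕ → B, (∀ᶠ ν in (hyperfilter ℕ : Filter ℕ), ∀ i,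
        VanAt G a N (p.p i ν) (F ν)) ∧ TendsB G F (cl58R G a N 0 (e k).1) := by
      intro k
      have h1 : cl58R G a N 0 (e k).1 ∈ JI p a N := (e k).2
      rw [mem_JI] at h1
      exact h1
    choose F hF1 hF2 using hF
    have hq := pts_tendsto_q_hyper p
    obtain ⟨c', hc', c, hc, hlim⟩ := cl58_lim (κ := Fin (Module.finrank ℂ K'))
      (P := fun ν c => ∑ k, c k • cl58L G a N (p.q ν) (F k ν) = 0)
      (fun ν c h t => by
        have h1 : ∑ k, (t • c) k • cl58L G a N (p.q ν) (F k ν) =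
            t • ∑ k, c k • cl58L G a N (p.q ν) (F k ν) := by
          rw [Finset.smul_sum]
          refine Finset.sum_congr rfl fun k _ => ?_
          rw [Pi.smul_apply, smul_eq_mul, mul_smul]
        rw [h1, h, smul_zero])
      (by
        filter_upwards [eventually_all.2 hF1] with ν hν
        have hWI : cl58W G a N (p.q ν) ≤ I ν := le_inf (cl58_W_le_I G (p.proj_p 0 ν))
          (cl58_W_le_I G (p.proj_p 1 ν))
        obtain ⟨-, hIν⟩ := cl58_finrank G a N (p.q ν) hWI
        rw [(hcod ν).2] at hIν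
        set K := ((I ν).restrictScalars ℂ).comap (cl58R G a N (p.q ν)) with hK
        have hw : ∀ k, cl58L G a N (p.q ν) (F k ν) ∈ K := by
          intro k
          show cl58R G a N (p.q ν) (cl58L G a N (p.q ν) (F k ν)) ∈ I ν
          have h1 : F k ν ∈ I ν := (hmem ν _).2 (hν k)
          have h2 := hWI (cl58_sub_mem G a N (p.q ν) (F k ν))
          have h3 := Ideal.sub_mem _ h1 h2
          rwa [sub_sub_cancel] at h3
        let f : (Fin (Module.finrank ℂ K') → ℂ) →ₗ[ℂ] K :=
          Fintype.linearCombination ℂ fun k => (⟨_, hw k⟩ : K)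
        have h1 : LinearMap.ker f ≠ ⊥ := by
          refine LinearMap.ker_ne_bot_of_finrank_lt ?_
          rw [Module.finrank_fintype_fun_eq_card, Fintype.card_fin]
          omega
        obtain ⟨c, hc, hc0⟩ := Submodule.exists_mem_ne_zero_of_ne_bot h1
        refine ⟨c, hc0, ?_⟩
        rw [LinearMap.mem_ker] at hc
        have h2 := congrArg (Subtype.val) hc
        have h3 : f c = ∑ k, c k • (⟨_, hw k⟩ : K) := Fintype.linearCombination_apply _ _ _
        rw [h3] at h2
        simpa using h2)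
    have h2 : ∑ k, c' k • (e k).1 = 0 := by
      have h3 : Tendsto (fun ν => ∑ k, c ν k • cl58L G a N (p.q ν) (F k ν))
          (hyperfilter ℕ : Filter ℕ) (nhds (∑ k, c' k • (e k).1)) := by
        refine tendsto_finsetSum _ fun k _ => (tendsto_pi_nhds.1 hlim k).smul ?_
        have h4 := cl58_tendsto_L (hF2 k) hq a N
        rwa [cl58_L_R] at h4
      have h5 : Tendsto (fun ν => ∑ k, c ν k • cl58L G a N (p.q ν) (F k ν))
          (hyperfilter ℕ : Filter ℕ) (nhds 0) :=
        tendsto_const_nhds.congr' (hc.mono fun ν h => h.symm)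
      exact tendsto_nhds_unique h3 h5
    have h3 := e.linearIndependent
    rw [Fintype.linearIndependent_iff] at h3
    refine hc' (funext fun k => h3 c' ?_ k)
    apply Subtype.ext
    simpa using h2

end Pool.Agent.Odp2
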