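import Pool.Agent.Odp2.Defs
import Pool.Agent.Odp2.Lim.Ideal
import Pool.Agent.Odp2.Pt.Bdd
import Pool.Agent.Odp2.Pt.Red

open scoped ContDiff Topology ENNReal NNReal WithZero
open Set MeasureTheory Filter MvPolynomial Pool.Agent.ODP

namespace Pool.Agent.Odp2

section

variable {n d : ℕ} {B : Type} [CommRing B] [Algebra ℂ B] {G : Germ n d B}

/-- uniform convergence on the preimage of a ball -/
theorem TendsB.unif {F : ℕ → B} {F' : B} (h : TendsB G F F') (R : ℝ) {ε : ℝ} (hε : 0 < ε) :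
    ∀ᶠ ν in (hyperfilter ℕ : Filter ℕ), ∀ χ : Pt B, nq (proj G.y χ) ≤ R →
      ‖χ (F ν) - χ F'‖ ≤ ε := by
  classical
  rw [tendsB_iff] at h
  choose Λ hΛ using fun i => (h i).1
  choose A hA using fun m : Fin n →₀ ℕ => bdd_eval (monomial m (1 : ℂ)) R
  choose Cb hCb using fun i => G.bdd (G.e i) R
  set E : ℕ → ℝ := fun ν => ∑ i, (∑ m ∈ Λ i ∪ (G.cf F' i).support,
    ‖coeff m (G.cf (F ν) i) - coeff m (G.cf F' i)‖ * |A m|) * |Cb i| with hEdef
  have hE : Tendsto E (hyperfilter ℕ : Filter ℕ) (𝓝 0) := by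
    have h1 : Tendsto E (hyperfilter ℕ : Filter ℕ) (𝓝 (∑ i, (∑ m ∈ Λ i ∪ (G.cf F' i).support,
        ‖coeff m (G.cf F' i) - coeff m (G.cf F' i)‖ * |A m|) * |Cb i|)) := by
      refine tendsto_finsetSum _ fun i _ => (tendsto_finsetSum _ fun m _ => ?_).mul_const _
      exact ((((h i).2 m).sub_const _).norm).mul_const _
    simpa using h1
  filter_upwards [hE.eventually_le_const hε, eventually_all.2 hΛ] with ν h1 h2 χ hχ
  refine le_trans ?_ h1
  rw [apply_eq_sum G χ (F ν), apply_eq_sum G χ F', ← Finset.sum_sub_distrib]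
  refine (norm_sum_le _ _).trans (Finset.sum_le_sum fun i _ => ?_)
  rw [← sub_mul, norm_mul]
  refine mul_le_mul ?_ ((hCb i χ hχ).trans (le_abs_self _)) (norm_nonneg _) (by positivity)
  have key : ∀ P : MvPolynomial (Fin n) ℂ, P.support ⊆ Λ i ∪ (G.cf F' i).support →
      eval (proj G.y χ) P = ∑ m ∈ Λ i ∪ (G.cf F' i).support,
        coeff m P * eval (proj G.y χ) (monomial m (1 : ℂ)) := by
    intro P hP
    have h3 : eval (proj G.y χ) P = ∑ m ∈ P.support,
        coeff m P * eval (proj G.y χ) (monomial m (1 : ℂ)) := by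
      conv_lhs => rw [P.as_sum]
      rw [map_sum]
      refine Finset.sum_congr rfl fun m _ => ?_
      rw [eval_monomial, eval_monomial, one_mul]
    rw [h3]
    refine Finset.sum_subset hP fun m _ hm => ?_
    rw [notMem_support_iff.1 hm, zero_mul]
  rw [key _ ((h2 i).trans Finset.subset_union_left), key _ Finset.subset_union_right,
    ← Finset.sum_sub_distrib]
  refine (norm_sum_le _ _).trans (Finset.sum_le_sum fun m _ => ?_)
  rw [← sub_mul, norm_mul]
  exact mul_le_mul_of_nonneg_left ((hA m _ hχ).trans (le_abs_self _)) (norm_nonneg _)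

end

variable {n d : ℕ} {B : Type} [CommRing B] [IsDomain B] [Algebra ℂ B] {G : Germ n d B} {x : Pt B}
  (p : Pts G x)

/-- the generators of `J_N` are uniform limits. -/
theorem JI_gens {a : Fin n → ℕ} (ha : ∀ j, 1 ≤ a j) (N : ℕ) : ∃ (L : ℕ) (f : Fin L → B)
    (F : Fin L → ℕ → B), Ideal.span (range f) = JI p a N ∧
      (∀ m : Fin n → ℕ, ∑ j, m j = N → ∃ l, f l = ∏ j, G.y j ^ m j) ∧
      (∀ᶠ ν in (hyperfilter ℕ : Filter ℕ), ∀ l i, VanAt G a N (p.p i ν) (F l ν)) ∧
      ∀ R ε : ℝ, 0 < ε → ∀ᶠ ν in (hyperfilter ℕ : Filter ℕ), ∀ l (χ : Pt B),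
        nq (proj G.y χ) ≤ R → ‖χ (F l ν) - χ (f l)‖ ≤ ε := by
  classical
  have := G.red_noeth
  obtain ⟨S, hS⟩ := IsNoetherian.noetherian (JI p a N)
  have hfin : {m : Fin n → ℕ | ∑ j, m j = N}.Finite := by
    refine (Set.Finite.pi fun _ : Fin n => Set.finite_Iic N).subset fun m hm j _ => ?_
    have h1 : m j ≤ ∑ j, m j := Finset.single_le_sum (fun _ _ => Nat.zero_le _) (Finset.mem_univ j)
    exact h1.trans (le_of_eq hm)
  set T : Finset B := S ∪ hfin.toFinset.image (fun m => ∏ j, G.y j ^ m j) with hT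
  have hTJ : ∀ b ∈ T, b ∈ JI p a N := by
    intro b hb
    rcases Finset.mem_union.1 hb with h | h
    · rw [← hS]
      exact Submodule.subset_span h
    · obtain ⟨m, hm, rfl⟩ := Finset.mem_image.1 h
      refine mono_mem_JI p a ?_
      have h1 : ∑ j, m j = N := by simpa using hm
      rw [← h1]
      exact Finset.sum_le_sum fun j _ => Nat.le_mul_of_pos_left _ (ha j)
  have hspan : Ideal.span (T : Set B) = JI p a N := by
    refine le_antisymm (Ideal.span_le.2 fun b hb => hTJ b hb) ?_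
    rw [← hS]
    exact Submodule.span_mono fun b hb => Finset.mem_union_left _ hb
  let e := T.equivFin
  have hJ : ∀ l, ∃ F : ℕ → B, (∀ᶠ ν in (hyperfilter ℕ : Filter ℕ), ∀ i,
      VanAt G a N (p.p i ν) (F ν)) ∧ TendsB G F (e.symm l : B) := by
    intro l
    have h1 := hTJ _ (e.symm l).2
    rw [mem_JI] at h1
    exact h1
  choose F hF1 hF2 using hJ
  refine ⟨T.card, fun l => (e.symm l : B), F, ?_, ?_, ?_, ?_⟩
  · rw [← hspan]
    congr 1
    ext b
    constructor
    · rintro ⟨l, rfl⟩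
      exact (e.symm l).2
    · intro hb
      exact ⟨e ⟨b, hb⟩, by simp⟩
  · intro m hm
    have h1 : ∏ j, G.y j ^ m j ∈ T :=
      Finset.mem_union_right _ (Finset.mem_image.2 ⟨m, by simpa using hm, rfl⟩)
    exact ⟨e ⟨_, h1⟩, by simp⟩
  · exact eventually_all.2 hF1
  · intro R ε hε
    exact eventually_all.2 fun l => (hF2 l).unif R hε

end Pool.Agent.Odp2
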