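import Pool.Agent.Odp2.Defs
import Pool.Agent.Odp2.Lim.Ideal

/-!
# The colength of `J_N`, part B: the limit

If for every `ν` the ideal of the functions vanishing to the weighted order `N` at `p 0 ν` and
`p 1 ν` has colength `c`, then `J_N` has colength `c`.
-/

open scoped ContDiff Topology ENNReal NNReal WithZero InnerProductSpace
open Set MeasureTheory Filter MvPolynomial Pool.Agent.ODP

namespace Pool.Agent.Odp2

/-! ### Limits of subspaces along an ultrafilter -/

namespace ColB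

section Ultra

variable {E : Type*} [NormedAddCommGroup E] [InnerProductSpace ℂ E] [FiniteDimensional ℂ E]

/-- The limit of a sequence of subspaces along an ultrafilter. -/
def limSub (l : Ultrafilter ℕ) (W : ℕ → Submodule ℂ E) : Submodule ℂ E where
  carrier := {v | ∃ w : ℕ → E, (∀ᶠ ν in (l : Filter ℕ), w ν ∈ W ν) ∧
    Tendsto w (l : Filter ℕ) (nhds v)}
  add_mem' := by
    rintro v v' ⟨w, h1, h2⟩ ⟨w', h1', h2'⟩
    refine ⟨fun ν => w ν + w' ν, ?_, h2.add h2'⟩
    filter_upwards [h1, h1'] with ν a b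
    exact (W ν).add_mem a b
  zero_mem' := ⟨fun _ => 0, Eventually.of_forall fun ν => (W ν).zero_mem, tendsto_const_nhds⟩
  smul_mem' := by
    rintro c v ⟨w, h1, h2⟩
    refine ⟨fun ν => c • w ν, ?_, h2.const_smul c⟩
    filter_upwards [h1] with ν a
    exact (W ν).smul_mem c a

omit [FiniteDimensional ℂ E] in
theorem mem_limSub {l : Ultrafilter ℕ} {W : ℕ → Submodule ℂ E} {v : E} :
    v ∈ limSub l W ↔ ∃ w : ℕ → E, (∀ᶠ ν in (l : Filter ℕ), w ν ∈ W ν) ∧
      Tendsto w (l : Filter ℕ) (nhds v) := Iff.rfl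

theorem finrank_limSub (l : Ultrafilter ℕ) (W : ℕ → Submodule ℂ E) (r : ℕ)
    (h : ∀ ν, Module.finrank ℂ (W ν) = r) : Module.finrank ℂ (limSub l W) = r := by
  classical
  have : ProperSpace E := FiniteDimensional.proper_rclike ℂ E
  let b : ∀ ν, OrthonormalBasis (Fin r) ℂ (W ν) := fun ν =>
    (stdOrthonormalBasis ℂ (W ν)).reindex (finCongr (h ν))
  let u : ℕ → Fin r → E := fun ν i => (b ν i : E)
  have hu : ∀ ν, Orthonormal ℂ (u ν) := fun ν =>
    (b ν).orthonormal.comp_linearIsometry (W ν).subtypeₗᵢ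
  have hlim : ∀ i, ∃ v : E, Tendsto (fun ν => u ν i) (l : Filter ℕ) (nhds v) := by
    intro i
    have hc : IsCompact (Metric.closedBall (0 : E) 1) := isCompact_closedBall 0 1
    rw [isCompact_iff_ultrafilter_le_nhds] at hc
    obtain ⟨v, _, hv⟩ := hc (l.map fun ν => u ν i) (by
      rw [Ultrafilter.coe_map, le_principal_iff, Filter.mem_map]
      refine Filter.univ_mem' fun ν => ?_
      show u ν i ∈ Metric.closedBall (0 : E) 1
      rw [mem_closedBall_zero_iff, (hu ν).1 i])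
    exact ⟨v, hv⟩
  choose v hv using hlim
  have hvo : Orthonormal ℂ v := by
    rw [orthonormal_iff_ite]
    intro i j
    have h1 : Tendsto (fun ν => ⟪u ν i, u ν j⟫_ℂ) (l : Filter ℕ) (nhds ⟪v i, v j⟫_ℂ) :=
      (hv i).inner (hv j)
    have h2 : ∀ ν, ⟪u ν i, u ν j⟫_ℂ = if i = j then 1 else 0 := fun ν =>
      (orthonormal_iff_ite.1 (hu ν)) i j
    simp only [h2] at h1
    exact tendsto_nhds_unique h1 tendsto_const_nhds
  have hspan : limSub l W = Submodule.span ℂ (Set.range v) := by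
    apply le_antisymm
    · rintro x ⟨w, h1, h2⟩
      have h3 : Tendsto (fun ν => ∑ i, ⟪u ν i, w ν⟫_ℂ • u ν i) (l : Filter ℕ)
          (nhds (∑ i, ⟪v i, x⟫_ℂ • v i)) :=
        tendsto_finsetSum _ fun i _ => ((hv i).inner h2).smul (hv i)
      have h4 : Tendsto w (l : Filter ℕ) (nhds (∑ i, ⟪v i, x⟫_ℂ • v i)) := by
        refine h3.congr' ?_
        filter_upwards [h1] with ν hν
        have h5 := (b ν).sum_repr' ⟨w ν, hν⟩
        have h6 := congrArg (fun z : W ν => (z : E)) h5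
        simp only [Submodule.coe_sum, Submodule.coe_smul] at h6
        exact h6
      have h5 := tendsto_nhds_unique h2 h4
      rw [h5]
      exact Submodule.sum_mem _ fun i _ =>
        Submodule.smul_mem _ _ (Submodule.subset_span ⟨i, rfl⟩)
    · rw [Submodule.span_le]
      rintro _ ⟨i, rfl⟩
      exact ⟨fun ν => u ν i, Eventually.of_forall fun ν => (b ν i).2, hv i⟩
  rw [hspan, finrank_span_eq_card hvo.linearIndependent, Fintype.card_fin]

end Ultra

/-! ### Taylor polynomials -/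

section Taylor

variable {n : ℕ}

/-- The exponents of degree `< K`. -/
def Lam (n K : ℕ) : Finset (Fin n →₀ ℕ) :=
  (Finset.range K).biUnion fun k => Finset.finsuppAntidiag Finset.univ k

theorem mem_Lam {K : ℕ} {m : Fin n →₀ ℕ} : m ∈ Lam n K ↔ ∑ j, m j < K := by
  unfold Lam
  simp only [Finset.mem_biUnion, Finset.mem_range, Finset.mem_finsuppAntidiag]
  constructor
  · rintro ⟨k, hk, h1, _⟩
    rw [h1]
    exact hk
  · intro h
    exact ⟨_, h, rfl, fun _ _ => Finset.mem_univ _⟩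

/-- `(X - q)^m` -/
noncomputable def sh (q : Fin n → ℂ) (m : Fin n → ℕ) : MvPolynomial (Fin n) ℂ :=
  ∏ j, (X j - C (q j)) ^ m j

/-- `P(X + q)` -/
noncomputable def tr (q : Fin n → ℂ) : MvPolynomial (Fin n) ℂ →ₐ[ℂ] MvPolynomial (Fin n) ℂ :=
  aeval fun j => X j + C (q j)

/-- The Taylor polynomial of degree `< K` at `q`. -/
noncomputable def tay (q : Fin n → ℂ) (K : ℕ) (P : MvPolynomial (Fin n) ℂ) :
    MvPolynomial (Fin n) ℂ :=
  ∑ m ∈ Lam n K, C ((tr q P).coeff m) * sh q m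

theorem tr_expand (q : Fin n → ℂ) (P : MvPolynomial (Fin n) ℂ) :
    P = ∑ m ∈ (tr q P).support, C ((tr q P).coeff m) * sh q m := by
  have h1 : (aeval fun j => X j - C (q j) : MvPolynomial (Fin n) ℂ →ₐ[ℂ] _) (tr q P) = P := by
    have h2 : ((aeval fun j => X j - C (q j) : MvPolynomial (Fin n) ℂ →ₐ[ℂ] _).comp (tr q)) =
        AlgHom.id ℂ (MvPolynomial (Fin n) ℂ) := by
      apply MvPolynomial.algHom_ext
      intro j
      simp [tr]
    have h3 := congrArg (fun f : MvPolynomial (Fin n) ℂ →ₐ[ℂ] MvPolynomial (Fin n) ℂ => f P) h2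
    simpa using h3
  conv_lhs => rw [← h1]
  rw [MvPolynomial.aeval_def, MvPolynomial.eval₂_eq']
  rfl

theorem tay_sub (q : Fin n → ℂ) (K : ℕ) (P : MvPolynomial (Fin n) ℂ) :
    P - tay q K P = ∑ m ∈ (tr q P).support.filter (fun m => m ∉ Lam n K),
      C ((tr q P).coeff m) * sh q m := by
  classical
  conv_lhs => rw [tr_expand q P]
  have h1 : tay q K (∑ m ∈ (tr q P).support, C ((tr q P).coeff m) * sh q m) = tay q K P := by
    rw [← tr_expand q P]
  rw [h1]
  unfold tay
  rw [sub_eq_iff_eq_add]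
  have h2 : ∑ m ∈ Lam n K, C ((tr q P).coeff m) * sh q m =
      ∑ m ∈ (tr q P).support.filter (fun m => m ∈ Lam n K), C ((tr q P).coeff m) * sh q m := by
    symm
    apply Finset.sum_subset
    · intro m hm
      exact (Finset.mem_filter.1 hm).2
    · intro m hm hm'
      rw [Finset.mem_filter, not_and'] at hm'
      have := hm' hm
      rw [MvPolynomial.notMem_support_iff] at this
      rw [this, C_0, zero_mul]
  rw [h2, add_comm, Finset.sum_filter_add_sum_filter_not]

theorem sh_totalDegree (q : Fin n → ℂ) (m : Fin n → ℕ) : (sh q m).totalDegree ≤ ∑ j, m j := by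
  unfold sh
  refine (MvPolynomial.totalDegree_finsetProd _ _).trans (Finset.sum_le_sum fun j _ => ?_)
  refine (MvPolynomial.totalDegree_pow _ _).trans ?_
  have : (X j - C (q j) : MvPolynomial (Fin n) ℂ).totalDegree ≤ 1 := by
    refine (MvPolynomial.totalDegree_sub _ _).trans ?_
    rw [MvPolynomial.totalDegree_X, MvPolynomial.totalDegree_C]
    simp
  calc m j * (X j - C (q j) : MvPolynomial (Fin n) ℂ).totalDegree ≤ m j * 1 :=
        Nat.mul_le_mul_left _ this
    _ = m j := mul_one _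

theorem supp_of_deg {K : ℕ} {P : MvPolynomial (Fin n) ℂ} (h : P.totalDegree < K) :
    P.support ⊆ Lam n K := by
  intro m hm
  rw [mem_Lam]
  have h1 := MvPolynomial.le_totalDegree hm
  have h2 : (m.sum fun _ e => e) = ∑ j, m j := by
    rw [Finsupp.sum_fintype]
    intro _
    rfl
  omega

theorem tay_support (q : Fin n → ℂ) (K : ℕ) (P : MvPolynomial (Fin n) ℂ) :
    (tay q K P).support ⊆ Lam n K := by
  classical
  unfold tay
  refine (MvPolynomial.support_sum).trans ?_
  rw [Finset.biUnion_subset]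
  intro m hm
  rw [mem_Lam] at hm
  refine supp_of_deg ?_
  refine lt_of_le_of_lt (MvPolynomial.totalDegree_mul _ _) ?_
  rw [MvPolynomial.totalDegree_C, zero_add]
  exact lt_of_le_of_lt (sh_totalDegree q m) hm

theorem tendsP_congr {l : Filter ℕ} {P Q : ℕ → MvPolynomial (Fin n) ℂ}
    {P' : MvPolynomial (Fin n) ℂ} (h : TendsP l P P') (he : ∀ᶠ ν in l, P ν = Q ν) :
    TendsP l Q P' := by
  obtain ⟨⟨Λ, hΛ⟩, hc⟩ := h
  refine ⟨⟨Λ, ?_⟩, fun m => (hc m).congr' ?_⟩
  · filter_upwards [hΛ, he] with ν h1 h2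
    rwa [← h2]
  · filter_upwards [he] with ν h2
    rw [h2]

theorem tendsP_pow {l : Filter ℕ} {P : ℕ → MvPolynomial (Fin n) ℂ} {P' : MvPolynomial (Fin n) ℂ}
    (h : TendsP l P P') (k : ℕ) : TendsP l (fun ν => P ν ^ k) (P' ^ k) := by
  induction k with
  | zero => simpa using tendsP_const (l := l) (1 : MvPolynomial (Fin n) ℂ)
  | succ k ih => simpa only [pow_succ] using ih.mul h

theorem tendsP_prod {ι : Type*} (s : Finset ι) {l : Filter ℕ} {P : ι → ℕ → MvPolynomial (Fin n) ℂ}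
    {P' : ι → MvPolynomial (Fin n) ℂ} (h : ∀ i ∈ s, TendsP l (P i) (P' i)) :
    TendsP l (fun ν => ∏ i ∈ s, P i ν) (∏ i ∈ s, P' i) := by
  classical
  induction s using Finset.induction_on with
  | empty => simpa using tendsP_const (l := l) (1 : MvPolynomial (Fin n) ℂ)
  | insert a s ha ih =>
    simp only [Finset.prod_insert ha]
    exact (h a (Finset.mem_insert_self a s)).mul
      (ih fun i hi => h i (Finset.mem_insert_of_mem hi))

theorem tendsP_supp {l : Filter ℕ} [l.NeBot] {P : ℕ → MvPolynomial (Fin n) ℂ}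
    {P' : MvPolynomial (Fin n) ℂ} (h : TendsP l P P') {Λ : Finset (Fin n →₀ ℕ)}
    (hΛ : ∀ᶠ ν in l, (P ν).support ⊆ Λ) : P'.support ⊆ Λ := by
  intro m hm
  by_contra hmΛ
  have h0 : ∀ᶠ ν in l, (P ν).coeff m = 0 := by
    filter_upwards [hΛ] with ν h1
    by_contra h2
    exact hmΛ (h1 (MvPolynomial.mem_support_iff.2 h2))
  have h1 : Tendsto (fun ν => (P ν).coeff m) l (nhds 0) :=
    tendsto_const_nhds.congr' (h0.mono fun ν hν => hν.symm)
  exact (MvPolynomial.mem_support_iff.1 hm) (tendsto_nhds_unique (h.2 m) h1)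

theorem tendsP_sh {l : Filter ℕ} {q : ℕ → Fin n → ℂ} (hq : Tendsto q l (nhds 0)) (ε : ℂ)
    (m : Fin n → ℕ) : TendsP l (fun ν => ∏ j, (X j + C (ε * q ν j)) ^ m j) (∏ j, X j ^ m j) := by
  refine tendsP_prod _ fun j _ => tendsP_pow ?_ _
  have h1 : Tendsto (fun ν => ε * q ν j) l (nhds (ε * 0)) :=
    ((tendsto_pi_nhds.1 hq j).const_mul ε)
  have h2 := (tendsP_const (l := l) (X j : MvPolynomial (Fin n) ℂ)).add (tendsP_C h1)
  simpa using h2

theorem expand_supp {P : MvPolynomial (Fin n) ℂ} {Λ : Finset (Fin n →₀ ℕ)} (h : P.support ⊆ Λ)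
    (f : Fin n → MvPolynomial (Fin n) ℂ) :
    aeval f P = ∑ m ∈ Λ, C (P.coeff m) * ∏ j, f j ^ m j := by
  rw [MvPolynomial.aeval_def, MvPolynomial.eval₂_eq']
  refine Finset.sum_subset h fun m _ hm => ?_
  rw [MvPolynomial.notMem_support_iff.1 hm, map_zero, zero_mul]

theorem tendsP_tr {l : Filter ℕ} [l.NeBot] {P : ℕ → MvPolynomial (Fin n) ℂ}
    {P' : MvPolynomial (Fin n) ℂ}
    (h : TendsP l P P') {q : ℕ → Fin n → ℂ} (hq : Tendsto q l (nhds 0)) :
    TendsP l (fun ν => tr (q ν) (P ν)) P' := by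
  obtain ⟨Λ, hΛ⟩ := h.1
  have h1 : TendsP l (fun ν => ∑ m ∈ Λ, C ((P ν).coeff m) * ∏ j, (X j + C (1 * q ν j)) ^ m j)
      (∑ m ∈ Λ, C (P'.coeff m) * ∏ j, X j ^ m j) :=
    TendsP.sum Λ fun m _ => (tendsP_C (h.2 m)).mul (tendsP_sh hq 1 m)
  have h2 : ∑ m ∈ Λ, C (P'.coeff m) * ∏ j, (X j : MvPolynomial (Fin n) ℂ) ^ m j = P' := by
    rw [← expand_supp (tendsP_supp h hΛ) X]
    simp
  rw [h2] at h1
  refine tendsP_congr h1 ?_
  filter_upwards [hΛ] with ν hν
  unfold tr
  rw [expand_supp hν]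
  simp

theorem tendsP_tay {l : Filter ℕ} [l.NeBot] {P : ℕ → MvPolynomial (Fin n) ℂ}
    {P' : MvPolynomial (Fin n) ℂ} (h : TendsP l P P') {q : ℕ → Fin n → ℂ}
    (hq : Tendsto q l (nhds 0)) {K : ℕ} (hK : P'.support ⊆ Lam n K) :
    TendsP l (fun ν => tay (q ν) K (P ν)) P' := by
  have h1 := tendsP_tr h hq
  have h2 : TendsP l (fun ν => ∑ m ∈ Lam n K, C ((tr (q ν) (P ν)).coeff m) *
      ∏ j, (X j + C ((-1) * q ν j)) ^ m j) (∑ m ∈ Lam n K, C (P'.coeff m) * ∏ j, X j ^ m j) :=
    TendsP.sum _ fun m _ => (tendsP_C (h1.2 m)).mul (tendsP_sh hq (-1) m)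
  have h3 : ∑ m ∈ Lam n K, C (P'.coeff m) * ∏ j, (X j : MvPolynomial (Fin n) ℂ) ^ m j = P' := by
    rw [← expand_supp hK X]
    simp
  rw [h3] at h2
  refine tendsP_congr h2 (Eventually.of_forall fun ν => ?_)
  unfold tay sh
  refine Finset.sum_congr rfl fun m _ => ?_
  congr 1
  refine Finset.prod_congr rfl fun j _ => ?_
  congr 1
  simp [sub_eq_add_neg]

end Taylor

/-! ### The space of the elements of degree `< K` -/

section Main

variable {n d : ℕ} {B : Type} [CommRing B] [Algebra ℂ B] (G : Germ n d B)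

/-- Coordinates. -/
abbrev EE (n d K : ℕ) := EuclideanSpace ℂ (Fin d × Lam n K)

/-- The element with the given coordinates. -/
noncomputable def phi (K : ℕ) : EE n d K →ₗ[ℂ] B where
  toFun c := ∑ i, aeval G.y (∑ m : Lam n K, monomial (m : Fin n →₀ ℕ) (c (i, m))) * G.e i
  map_add' c c' := by
    rw [← Finset.sum_add_distrib]
    refine Finset.sum_congr rfl fun i _ => ?_
    rw [← add_mul, ← map_add, ← Finset.sum_add_distrib]
    congr 2
    refine Finset.sum_congr rfl fun m _ => ?_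
    rw [← map_add]
    rfl
  map_smul' t c := by
    rw [RingHom.id_apply, Finset.smul_sum]
    refine Finset.sum_congr rfl fun i _ => ?_
    rw [← smul_mul_assoc, ← map_smul, Finset.smul_sum]
    congr 2
    refine Finset.sum_congr rfl fun m _ => ?_
    rw [MvPolynomial.smul_monomial]
    rfl

theorem cf_phi (K : ℕ) (c : EE n d K) :
    G.cf (phi G K c) = fun i => ∑ m : Lam n K, monomial (m : Fin n →₀ ℕ) (c (i, m)) :=
  (G.cf_unique _ _ rfl).symm

/-- The coordinates of an element. -/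
noncomputable def psi (K : ℕ) (b : B) : EE n d K :=
  WithLp.toLp 2 fun p => (G.cf b p.1).coeff (p.2 : Fin n →₀ ℕ)

theorem psi_apply (K : ℕ) (b : B) (p : Fin d × Lam n K) :
    psi G K b p = (G.cf b p.1).coeff (p.2 : Fin n →₀ ℕ) := rfl

theorem phi_psi {K : ℕ} {b : B} (h : ∀ i, (G.cf b i).support ⊆ Lam n K) :
    phi G K (psi G K b) = b := by
  classical
  have h0 : phi G K (psi G K b) = ∑ i, aeval G.y (∑ m : Lam n K,
      monomial (m : Fin n →₀ ℕ) (psi G K b (i, m))) * G.e i := rfl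
  rw [h0]
  conv_rhs => rw [G.cf_spec b]
  refine Finset.sum_congr rfl fun i _ => ?_
  congr 2
  conv_rhs => rw [MvPolynomial.as_sum (G.cf b i)]
  rw [Finset.sum_subset (h i) (fun m _ hm => by
    rw [MvPolynomial.notMem_support_iff.1 hm, monomial_zero])]
  rw [← Finset.sum_coe_sort (Lam n K)]
  rfl

theorem psi_phi (K : ℕ) (c : EE n d K) : psi G K (phi G K c) = c := by
  classical
  ext p
  rw [psi_apply, cf_phi]
  simp only [MvPolynomial.coeff_sum, MvPolynomial.coeff_monomial]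
  rw [Finset.sum_eq_single p.2]
  · simp
  · intro m _ hm
    rw [if_neg]
    intro h
    exact hm (Subtype.ext h)
  · intro h
    exact absurd (Finset.mem_univ _) h

/-- The truncation of an element at `q`. -/
noncomputable def tayB (q : Fin n → ℂ) (K : ℕ) (b : B) : B :=
  ∑ i, aeval G.y (tay q K (G.cf b i)) * G.e i

theorem cf_tayB (q : Fin n → ℂ) (K : ℕ) (b : B) :
    G.cf (tayB G q K b) = fun i => tay q K (G.cf b i) := (G.cf_unique _ _ rfl).symm

theorem aeval_sh (q : Fin n → ℂ) (m : Fin n → ℕ) :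
    aeval G.y (sh q m) = ∏ j, (G.y j - algebraMap ℂ B (q j)) ^ m j := by
  unfold sh
  simp [map_prod]

theorem sub_tayB_mem (q : Fin n → ℂ) (K : ℕ) (b : B) (I : Ideal B)
    (hI : ∀ m : Fin n →₀ ℕ, K ≤ ∑ j, m j → ∏ j, (G.y j - algebraMap ℂ B (q j)) ^ m j ∈ I) :
    b - tayB G q K b ∈ I := by
  have h1 : b - tayB G q K b = ∑ i, aeval G.y (G.cf b i - tay q K (G.cf b i)) * G.e i := by
    unfold tayB
    conv_lhs => rw [G.cf_spec b]
    rw [← Finset.sum_sub_distrib]
    refine Finset.sum_congr rfl fun i _ => ?_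
    rw [← G.cf_spec b, map_sub, sub_mul]
  rw [h1]
  refine Ideal.sum_mem _ fun i _ => Ideal.mul_mem_right _ _ ?_
  rw [tay_sub, map_sum]
  refine Ideal.sum_mem _ fun m hm => ?_
  rw [map_mul, aeval_sh]
  refine Ideal.mul_mem_left _ _ (hI m ?_)
  have := (Finset.mem_filter.1 hm).2
  rw [mem_Lam] at this
  omega

/-- The part of the ideal in degree `< K`. -/
noncomputable def sec (K : ℕ) (I : Ideal B) : Submodule ℂ (EE n d K) :=
  (I.restrictScalars ℂ).comap (phi G K)

theorem mem_sec {K : ℕ} {I : Ideal B} {c : EE n d K} : c ∈ sec G K I ↔ phi G K c ∈ I := Iff.rfl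

/-- colength and the part in degree `< K` -/
theorem colength_add (q : Fin n → ℂ) (K : ℕ) (I : Ideal B)
    (hI : ∀ m : Fin n →₀ ℕ, K ≤ ∑ j, m j → ∏ j, (G.y j - algebraMap ℂ B (q j)) ^ m j ∈ I) :
    colength ℂ I + Module.finrank ℂ (sec G K I) = Module.finrank ℂ (EE n d K) := by
  set f : EE n d K →ₗ[ℂ] B ⧸ I := (Ideal.Quotient.mkₐ ℂ I).toLinearMap ∘ₗ phi G K with hf
  have h1 := LinearMap.finrank_range_add_finrank_ker f
  have h2 : LinearMap.range f = ⊤ := by
    rw [LinearMap.range_eq_top]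
    intro z
    obtain ⟨b, rfl⟩ := Ideal.Quotient.mk_surjective z
    refine ⟨psi G K (tayB G q K b), ?_⟩
    rw [hf, LinearMap.comp_apply, phi_psi G (fun i => by
      rw [cf_tayB]
      exact tay_support q K _)]
    show Ideal.Quotient.mk I _ = Ideal.Quotient.mk I b
    rw [Ideal.Quotient.eq]
    have := sub_tayB_mem G q K b I hI
    rw [← neg_mem_iff, neg_sub]
    exact this
  have h3 : LinearMap.ker f = sec G K I := by
    ext c
    rw [LinearMap.mem_ker, mem_sec, hf, LinearMap.comp_apply]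
    exact Ideal.Quotient.eq_zero_iff_mem
  rw [h2, h3, finrank_top] at h1
  exact h1

end Main

end ColB

open ColB

variable {n d : ℕ} {B : Type} [CommRing B] [Algebra ℂ B] {G : Germ n d B} {x : Pt B}
  (p : Pts G x)

theorem ColB.phi_tendsto {K : ℕ} {c : ℕ → EE n d K} {c' : EE n d K}
    (h : Tendsto c (hyperfilter ℕ : Filter ℕ) (nhds c')) :
    TendsB G (fun ν => phi G K (c ν)) (phi G K c') := by
  classical
  rw [tendsB_iff]
  intro i
  simp only [cf_phi]
  have h1 : ∀ p, Tendsto (fun ν => c ν p) (hyperfilter ℕ : Filter ℕ) (nhds (c' p)) := fun p =>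
    ((EuclideanSpace.proj (𝕜 := ℂ) p).continuous.tendsto c').comp h
  refine TendsP.sum _ fun m _ => ?_
  have h2 := (tendsP_C (h1 (i, m))).mul (tendsP_const (monomial (m : Fin n →₀ ℕ) (1 : ℂ)))
  simpa [C_mul_monomial] using h2

theorem ColB.psi_tendsto (K : ℕ) {F : ℕ → B} {F' : B} (h : TendsB G F F') :
    Tendsto (fun ν => psi G K (F ν)) (hyperfilter ℕ : Filter ℕ) (nhds (psi G K F')) := by
  have h1 : ∀ p : Fin d × Lam n K, Tendsto (fun ν => (psi G K (F ν)) p) (hyperfilter ℕ : Filter ℕ)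
      (nhds ((psi G K F') p)) := fun p => by
    simp only [psi_apply]
    exact h.choose_spec.2 p.1 p.2
  have h2 : Tendsto (fun ν => (EuclideanSpace.equiv (Fin d × Lam n K) ℂ) (psi G K (F ν)))
      (hyperfilter ℕ : Filter ℕ) (nhds ((EuclideanSpace.equiv (Fin d × Lam n K) ℂ) (psi G K F'))) :=
    tendsto_pi_nhds.2 h1
  have h3 := ((EuclideanSpace.equiv (Fin d × Lam n K) ℂ).symm.continuous.tendsto _).comp h2
  simpa [Function.comp_def] using h3

/-- **Part B**: the limit. -/
theorem colength_JI_of [IsDomain B] {a : Fin n → ℕ} (ha : ∀ j, 1 ≤ a j) (N c : ℕ) (I : ℕ → Ideal B)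
    (hI : ∀ ν F, F ∈ I ν ↔ ∀ i, VanAt G a N (p.p i ν) F) (hc : ∀ ν, colength ℂ (I ν) = c) :
    colength ℂ (JI p a N) = c := by
  classical
  have hdeg : ∀ m : Fin n →₀ ℕ, N ≤ ∑ j, m j → N ≤ ∑ j, a j * m j := fun m hm =>
    hm.trans (Finset.sum_le_sum fun j _ => Nat.le_mul_of_pos_left _ (ha j))
  -- the ideals contain the high powers
  have h1 : ∀ ν, ∀ m : Fin n →₀ ℕ, N ≤ ∑ j, m j →
      ∏ j, (G.y j - algebraMap ℂ B (p.q ν j)) ^ m j ∈ I ν := by
    intro ν m hm
    rw [hI]
    intro i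
    exact vanAt_prod (G := G) a (hdeg m hm) (p.p i ν) (p.proj_p i ν)
  have h2 : ∀ m : Fin n →₀ ℕ, N ≤ ∑ j, m j →
      ∏ j, (G.y j - algebraMap ℂ B ((0 : Fin n → ℂ) j)) ^ m j ∈ JI p a N := by
    intro m hm
    simpa using mono_mem_JI p a (hdeg m hm)
  have h3 : ∀ ν, Module.finrank ℂ (sec G N (I ν)) = Module.finrank ℂ (EE n d N) - c := by
    intro ν
    have := colength_add G (p.q ν) N (I ν) (h1 ν)
    rw [hc] at this
    omega
  have h4 := finrank_limSub (hyperfilter ℕ) (fun ν => sec G N (I ν)) _ h3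
  have h5 : limSub (hyperfilter ℕ) (fun ν => sec G N (I ν)) = sec G N (JI p a N) := by
    ext v
    rw [mem_limSub, mem_sec, mem_JI]
    constructor
    · rintro ⟨w, hw1, hw2⟩
      refine ⟨fun ν => phi G N (w ν), ?_, ColB.phi_tendsto hw2⟩
      filter_upwards [hw1] with ν hν
      exact (hI ν _).1 hν
    · rintro ⟨F, hF1, hF2⟩
      refine ⟨fun ν => psi G N (tayB G (p.q ν) N (F ν)), ?_, ?_⟩
      · filter_upwards [hF1] with ν hν
        show phi G N (psi G N (tayB G (p.q ν) N (F ν))) ∈ I ν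
        rw [phi_psi G (fun i => by
          rw [cf_tayB]
          exact tay_support _ N _)]
        have e1 := sub_tayB_mem G (p.q ν) N (F ν) (I ν) (h1 ν)
        have e2 : F ν ∈ I ν := (hI ν _).2 hν
        have e3 := (I ν).sub_mem e2 e1
        simpa using e3
      · have e1 : TendsB G (fun ν => tayB G (p.q ν) N (F ν)) (phi G N v) := by
          rw [tendsB_iff] at hF2 ⊢
          intro i
          simp only [cf_tayB]
          refine tendsP_tay (hF2 i) (pts_tendsto_q_hyper p) ?_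
          rw [cf_phi]
          refine (MvPolynomial.support_sum).trans ?_
          rw [Finset.biUnion_subset]
          intro m _
          refine (MvPolynomial.support_monomial_subset).trans ?_
          rw [Finset.singleton_subset_iff]
          exact m.2
        have e2 := ColB.psi_tendsto N e1
        rwa [psi_phi] at e2
  have h6 := colength_add G 0 N (JI p a N) h2
  have h7 := colength_add G (p.q 0) N (I 0) (h1 0)
  rw [hc] at h7
  rw [h5] at h4
  omega

end Pool.Agent.Odp2
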