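import Pool.Agent.Odp2.Defs

open scoped ContDiff Topology ENNReal NNReal WithZero
open Set MeasureTheory Filter MvPolynomial Pool.Agent.ODP

namespace Pool.Agent.Odp2

/-! ### Convergence of polynomials with bounded support -/

/-- `P ν → P'` along `l`: the coefficients converge and the supports are bounded. -/
def TendsP {n : ℕ} (l : Filter ℕ) (P : ℕ → MvPolynomial (Fin n) ℂ) (P' : MvPolynomial (Fin n) ℂ) :
    Prop :=
  (∃ Λ : Finset (Fin n →₀ ℕ), ∀ᶠ ν in l, (P ν).support ⊆ Λ) ∧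
    ∀ m, Tendsto (fun ν => (P ν).coeff m) l (nhds (P'.coeff m))

section TendsP

variable {n : ℕ} {l : Filter ℕ} {P Q : ℕ → MvPolynomial (Fin n) ℂ}
  {P' Q' : MvPolynomial (Fin n) ℂ}

theorem tendsP_const (P' : MvPolynomial (Fin n) ℂ) : TendsP l (fun _ => P') P' :=
  ⟨⟨P'.support, Eventually.of_forall fun _ => subset_rfl⟩, fun _ => tendsto_const_nhds⟩

theorem TendsP.add (h : TendsP l P P') (h' : TendsP l Q Q') :
    TendsP l (fun ν => P ν + Q ν) (P' + Q') := by
  classical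
  obtain ⟨⟨Λ, hΛ⟩, hc⟩ := h
  obtain ⟨⟨Λ', hΛ'⟩, hc'⟩ := h'
  refine ⟨⟨Λ ∪ Λ', ?_⟩, fun m => ?_⟩
  · filter_upwards [hΛ, hΛ'] with ν h1 h2
    exact (MvPolynomial.support_add).trans (Finset.union_subset_union h1 h2)
  · simpa [MvPolynomial.coeff_add] using (hc m).add (hc' m)

theorem TendsP.mul (h : TendsP l P P') (h' : TendsP l Q Q') :
    TendsP l (fun ν => P ν * Q ν) (P' * Q') := by
  classical
  obtain ⟨⟨Λ, hΛ⟩, hc⟩ := h
  obtain ⟨⟨Λ', hΛ'⟩, hc'⟩ := h'
  refine ⟨⟨Finset.image₂ (· + ·) Λ Λ', ?_⟩, fun m => ?_⟩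
  · filter_upwards [hΛ, hΛ'] with ν h1 h2
    intro m hm
    have := MvPolynomial.support_mul (P ν) (Q ν) hm
    obtain ⟨a, ha, b, hb, rfl⟩ := Finset.mem_add.1 this
    exact Finset.mem_image₂_of_mem (h1 ha) (h2 hb)
  · simp only [MvPolynomial.coeff_mul]
    exact tendsto_finsetSum _ fun ab _ => (hc ab.1).mul (hc' ab.2)

theorem TendsP.sum {ι : Type*} (s : Finset ι) {P : ι → ℕ → MvPolynomial (Fin n) ℂ}
    {P' : ι → MvPolynomial (Fin n) ℂ} (h : ∀ i ∈ s, TendsP l (P i) (P' i)) :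
    TendsP l (fun ν => ∑ i ∈ s, P i ν) (∑ i ∈ s, P' i) := by
  classical
  induction s using Finset.induction_on with
  | empty => simpa using tendsP_const (l := l) (0 : MvPolynomial (Fin n) ℂ)
  | insert a s ha ih =>
    simp only [Finset.sum_insert ha]
    exact (h a (Finset.mem_insert_self a s)).add
      (ih fun i hi => h i (Finset.mem_insert_of_mem hi))

theorem tendsP_C {c : ℕ → ℂ} {c' : ℂ} (h : Tendsto c l (nhds c')) :
    TendsP l (fun ν => (C (c ν) : MvPolynomial (Fin n) ℂ)) (C c') := by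
  classical
  refine ⟨⟨{0}, Eventually.of_forall fun ν => ?_⟩, fun m => ?_⟩
  · change (C (c ν) : MvPolynomial (Fin n) ℂ).support ⊆ {0}
    rw [MvPolynomial.C_apply]
    exact MvPolynomial.support_monomial_subset
  · simp only [MvPolynomial.coeff_C]
    split_ifs
    · exact h
    · exact tendsto_const_nhds

theorem TendsP.eval {w : ℕ → Fin n → ℂ} {w' : Fin n → ℂ} (h : TendsP l P P')
    (hw : Tendsto w l (nhds w')) [l.NeBot] :
    Tendsto (fun ν => MvPolynomial.eval (w ν) (P ν)) l (nhds (MvPolynomial.eval w' P')) := by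
  classical
  obtain ⟨⟨Λ, hΛ⟩, hc⟩ := h
  have hsum : ∀ (p : MvPolynomial (Fin n) ℂ) (v : Fin n → ℂ) (S : Finset (Fin n →₀ ℕ)),
      p.support ⊆ S → MvPolynomial.eval v p = ∑ m ∈ S, p.coeff m * ∏ j, v j ^ m j := by
    intro p v S hS
    rw [MvPolynomial.eval_eq']
    refine Finset.sum_subset hS fun m _ hm => ?_
    rw [MvPolynomial.notMem_support_iff.1 hm, zero_mul]
  have hP' : P'.support ⊆ Λ := by
    intro m hm
    by_contra hmΛ
    have h0 : ∀ᶠ ν in l, (P ν).coeff m = 0 := by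
      filter_upwards [hΛ] with ν h1
      by_contra h2
      exact hmΛ (h1 (MvPolynomial.mem_support_iff.2 h2))
    have h1 : Tendsto (fun ν => (P ν).coeff m) l (nhds 0) :=
      tendsto_const_nhds.congr' (h0.mono fun ν hν => hν.symm)
    exact (MvPolynomial.mem_support_iff.1 hm) (tendsto_nhds_unique (hc m) h1)
  rw [hsum P' w' Λ hP']
  have h2 : Tendsto (fun ν => ∑ m ∈ Λ, (P ν).coeff m * ∏ j, w ν j ^ m j) l
      (nhds (∑ m ∈ Λ, P'.coeff m * ∏ j, w' j ^ m j)) := by
    refine tendsto_finsetSum _ fun m _ => (hc m).mul ?_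
    refine tendsto_finsetProd _ fun j _ => ?_
    exact ((tendsto_pi_nhds.1 hw j).pow _)
  refine h2.congr' ?_
  filter_upwards [hΛ] with ν h1
  exact (hsum _ _ _ h1).symm

end TendsP

/-! ### The coordinates `cf` -/

section Cf

variable {n d : ℕ} {B : Type} [CommRing B] [Algebra ℂ B] (G : Germ n d B)

theorem cf_add' (b c : B) : G.cf (b + c) = G.cf b + G.cf c := by
  refine (G.cf_unique _ _ ?_).symm
  simp only [Pi.add_apply, map_add, add_mul, Finset.sum_add_distrib]
  rw [← G.cf_spec b, ← G.cf_spec c]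

theorem cf_aeval_mul (P : MvPolynomial (Fin n) ℂ) (b : B) :
    G.cf (aeval G.y P * b) = fun i => P * G.cf b i := by
  refine (G.cf_unique _ _ ?_).symm
  simp only [map_mul, mul_assoc]
  rw [← Finset.mul_sum, ← G.cf_spec b]

theorem cf_algebraMap_mul (c : ℂ) (b : B) :
    G.cf (algebraMap ℂ B c * b) = fun i => C c * G.cf b i := by
  have := cf_aeval_mul G (C c) b
  rwa [MvPolynomial.aeval_C] at this

theorem cf_sum' {ι : Type*} (s : Finset ι) (f : ι → B) :
    G.cf (∑ i ∈ s, f i) = ∑ i ∈ s, G.cf (f i) := by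
  classical
  refine (G.cf_unique _ _ ?_).symm
  simp only [Finset.sum_apply, map_sum, Finset.sum_mul]
  rw [Finset.sum_comm]
  exact Finset.sum_congr rfl fun i _ => G.cf_spec (f i)

theorem cf_mul' (b c : B) (i : Fin d) :
    G.cf (b * c) i = ∑ k, ∑ l, G.cf b k * G.cf c l * G.cf (G.e k * G.e l) i := by
  have h1 : b * c = ∑ k, ∑ l, aeval G.y (G.cf b k * G.cf c l) * (G.e k * G.e l) := by
    conv_lhs => rw [G.cf_spec b, G.cf_spec c]
    rw [Finset.sum_mul_sum]
    refine Finset.sum_congr rfl fun k _ => Finset.sum_congr rfl fun l _ => ?_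
    rw [map_mul]; ring
  rw [h1, cf_sum']
  simp only [cf_sum', cf_aeval_mul, Finset.sum_apply]

theorem apply_eq_sum (χ : Pt B) (b : B) :
    χ b = ∑ i, MvPolynomial.eval (proj G.y χ) (G.cf b i) * χ (G.e i) := by
  conv_lhs => rw [G.cf_spec b]
  rw [map_sum]
  refine Finset.sum_congr rfl fun i _ => ?_
  rw [map_mul]
  congr 1
  have : χ (aeval G.y (G.cf b i)) = aeval (fun j => χ (G.y j)) (G.cf b i) := by
    have h := MvPolynomial.comp_aeval_apply (f := G.y) χ (G.cf b i)
    exact h.symm ▸ rfl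
  rw [this]
  rfl

end Cf

/-! ### Convergence in `B` -/

section TendsB

variable {n d : ℕ} {B : Type} [CommRing B] [Algebra ℂ B] {G : Germ n d B}

theorem tendsB_iff {F : ℕ → B} {F' : B} : TendsB G F F' ↔
    ∀ i, TendsP (hyperfilter ℕ : Filter ℕ) (fun ν => G.cf (F ν) i) (G.cf F' i) := by
  classical
  constructor
  · rintro ⟨Λ, h1, h2⟩ i
    exact ⟨⟨Λ, h1.mono fun ν h => h i⟩, h2 i⟩
  · intro h
    choose Λ hΛ using fun i => (h i).1
    refine ⟨Finset.univ.biUnion Λ, ?_, fun i m => (h i).2 m⟩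
    filter_upwards [eventually_all.2 hΛ] with ν h1 i
    exact (h1 i).trans (Finset.subset_biUnion_of_mem Λ (Finset.mem_univ i))

theorem tendsB_const (F' : B) : TendsB G (fun _ => F') F' :=
  tendsB_iff.2 fun _ => tendsP_const _

theorem TendsB.add {F H : ℕ → B} {F' H' : B} (h : TendsB G F F') (h' : TendsB G H H') :
    TendsB G (fun ν => F ν + H ν) (F' + H') := by
  rw [tendsB_iff] at *
  intro i
  simp only [cf_add', Pi.add_apply]
  exact (h i).add (h' i)

theorem TendsB.mul {F H : ℕ → B} {F' H' : B} (h : TendsB G F F') (h' : TendsB G H H') :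
    TendsB G (fun ν => F ν * H ν) (F' * H') := by
  rw [tendsB_iff] at *
  intro i
  have h1 : (fun ν => G.cf (F ν * H ν) i) = fun ν => ∑ k, ∑ l,
      G.cf (F ν) k * G.cf (H ν) l * G.cf (G.e k * G.e l) i := by
    funext ν
    exact cf_mul' G _ _ i
  rw [h1, cf_mul' G F' H' i]
  exact TendsP.sum _ fun k _ => TendsP.sum _ fun l _ => ((h k).mul (h' l)).mul (tendsP_const _)

theorem TendsB.pow {F : ℕ → B} {F' : B} (h : TendsB G F F') (k : ℕ) :
    TendsB G (fun ν => F ν ^ k) (F' ^ k) := by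
  induction k with
  | zero => simpa using tendsB_const (G := G) (1 : B)
  | succ k ih =>
    simp only [pow_succ]
    exact ih.mul h

theorem TendsB.prod {ι : Type*} (s : Finset ι) {F : ι → ℕ → B} {F' : ι → B}
    (h : ∀ i ∈ s, TendsB G (F i) (F' i)) :
    TendsB G (fun ν => ∏ i ∈ s, F i ν) (∏ i ∈ s, F' i) := by
  classical
  induction s using Finset.induction_on with
  | empty => simpa using tendsB_const (G := G) (1 : B)
  | insert a s ha ih =>
    simp only [Finset.prod_insert ha]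
    exact (h a (Finset.mem_insert_self a s)).mul
      (ih fun i hi => h i (Finset.mem_insert_of_mem hi))

theorem TendsB.algebraMap_mul {c : ℕ → ℂ} {c' : ℂ} {F : ℕ → B} {F' : B}
    (hc : Tendsto c (hyperfilter ℕ : Filter ℕ) (nhds c')) (h : TendsB G F F') :
    TendsB G (fun ν => algebraMap ℂ B (c ν) * F ν) (algebraMap ℂ B c' * F') := by
  rw [tendsB_iff] at *
  intro i
  simp only [cf_algebraMap_mul]
  exact (tendsP_C hc).mul (h i)

theorem tendsB_algebraMap {c : ℕ → ℂ} {c' : ℂ}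
    (hc : Tendsto c (hyperfilter ℕ : Filter ℕ) (nhds c')) :
    TendsB G (fun ν => algebraMap ℂ B (c ν)) (algebraMap ℂ B c') := by
  simpa using TendsB.algebraMap_mul hc (tendsB_const (G := G) (1 : B))

theorem tendsB_sub_algebraMap {c : ℕ → ℂ} (b : B)
    (hc : Tendsto c (hyperfilter ℕ : Filter ℕ) (nhds 0)) :
    TendsB G (fun ν => b - algebraMap ℂ B (c ν)) b := by
  have h1 := (tendsB_const (G := G) b).add
    (tendsB_algebraMap (G := G) (c := fun ν => -c ν) (c' := 0) (by simpa using hc.neg))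
  simpa [sub_eq_add_neg] using h1

/-- the values of a convergent sequence of functions at a convergent sequence of points. -/
theorem TendsB.tendsto_apply {x : Pt B} (hx : proj G.y x = 0) {q : ℕ → Fin n → ℂ} {p : ℕ → Pt B}
    (hp : ∀ ν, proj G.y (p ν) = q ν)
    (hq : Tendsto q (hyperfilter ℕ : Filter ℕ) (nhds 0))
    (hpt : ∀ b, Tendsto (fun ν => p ν b) (hyperfilter ℕ : Filter ℕ) (nhds (x b)))
    {F : ℕ → B} {F' : B} (h : TendsB G F F') :
    Tendsto (fun ν => p ν (F ν)) (hyperfilter ℕ : Filter ℕ) (nhds (x F')) := by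
  rw [tendsB_iff] at h
  rw [apply_eq_sum G x F', hx]
  simp only [apply_eq_sum G (p _) (F _), hp]
  exact tendsto_finsetSum _ fun i _ => ((h i).eval hq).mul (hpt _)

end TendsB

/-! ### The vanishing order -/

section VanAt

variable {n d : ℕ} {B : Type} [CommRing B] [Algebra ℂ B] {G : Germ n d B}

/-- The ideal generated by the monomials of weighted degree `≥ N` in `y - χ(y)`. -/
def WW (G : Germ n d B) (a : Fin n → ℕ) (N : ℕ) (χ : Pt B) : Ideal B :=
  Ideal.span {b | ∃ m : Fin n → ℕ, N ≤ ∑ j, a j * m j ∧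
    b = ∏ j, (G.y j - algebraMap ℂ B (χ (G.y j))) ^ m j}

theorem vanAt_iff {a : Fin n → ℕ} {N : ℕ} {χ : Pt B} {F : B} :
    VanAt G a N χ F ↔ ∃ t : B, χ t ≠ 0 ∧ t * F ∈ WW G a N χ := Iff.rfl

theorem WW_mul_le (a : Fin n → ℕ) (N M : ℕ) (χ : Pt B) :
    WW G a N χ * WW G a M χ ≤ WW G a (N + M) χ := by
  rw [WW, WW, Ideal.span_mul_span', Ideal.span_le]
  rintro _ ⟨u, ⟨m, hm, rfl⟩, v, ⟨m', hm', rfl⟩, rfl⟩
  refine Ideal.subset_span ⟨m + m', ?_, ?_⟩
  · simp only [Pi.add_apply, mul_add, Finset.sum_add_distrib]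
    exact Nat.add_le_add hm hm'
  · simp only [Pi.add_apply, pow_add, Finset.prod_mul_distrib]

theorem WW_anti (a : Fin n → ℕ) {N M : ℕ} (h : N ≤ M) (χ : Pt B) : WW G a M χ ≤ WW G a N χ :=
  Ideal.span_mono fun _ ⟨m, hm, hb⟩ => ⟨m, h.trans hm, hb⟩

theorem vanAt_zero (a : Fin n → ℕ) (N : ℕ) (χ : Pt B) : VanAt G a N χ 0 :=
  ⟨1, by simp, by simp⟩

theorem VanAt.add {a : Fin n → ℕ} {N : ℕ} {χ : Pt B} {F H : B} (h : VanAt G a N χ F)
    (h' : VanAt G a N χ H) : VanAt G a N χ (F + H) := by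
  obtain ⟨t, ht, hF⟩ := h
  obtain ⟨s, hs, hH⟩ := h'
  refine ⟨t * s, by simpa using ⟨ht, hs⟩, ?_⟩
  have : t * s * (F + H) = s * (t * F) + t * (s * H) := by ring
  rw [this]
  exact Ideal.add_mem _ (Ideal.mul_mem_left _ _ hF) (Ideal.mul_mem_left _ _ hH)

theorem VanAt.mul {a : Fin n → ℕ} {N M : ℕ} {χ : Pt B} {F H : B} (h : VanAt G a N χ F)
    (h' : VanAt G a M χ H) : VanAt G a (N + M) χ (F * H) := by
  obtain ⟨t, ht, hF⟩ := h
  obtain ⟨s, hs, hH⟩ := h'
  refine ⟨t * s, by simpa using ⟨ht, hs⟩, ?_⟩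
  have : t * s * (F * H) = (t * F) * (s * H) := by ring
  rw [this]
  exact WW_mul_le a N M χ (Ideal.mul_mem_mul hF hH)

theorem VanAt.mul_left {a : Fin n → ℕ} {N : ℕ} {χ : Pt B} {F : B} (c : B)
    (h : VanAt G a N χ F) : VanAt G a N χ (c * F) := by
  obtain ⟨t, ht, hF⟩ := h
  refine ⟨t, ht, ?_⟩
  have : t * (c * F) = c * (t * F) := by ring
  rw [this]
  exact Ideal.mul_mem_left _ _ hF

theorem VanAt.anti {a : Fin n → ℕ} {N M : ℕ} (hNM : N ≤ M) {χ : Pt B} {F : B}
    (h : VanAt G a M χ F) : VanAt G a N χ F := by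
  obtain ⟨t, ht, hF⟩ := h
  exact ⟨t, ht, WW_anti a hNM χ hF⟩

theorem vanAt_prod (a : Fin n → ℕ) {N : ℕ} {m : Fin n → ℕ} (h : N ≤ ∑ j, a j * m j) (χ : Pt B)
    {q : Fin n → ℂ} (hq : proj G.y χ = q) :
    VanAt G a N χ (∏ j, (G.y j - algebraMap ℂ B (q j)) ^ m j) := by
  subst hq
  refine ⟨1, by simp, ?_⟩
  rw [one_mul]
  exact Ideal.subset_span ⟨m, h, rfl⟩

theorem WW_one_le {a : Fin n → ℕ} {c M N : ℕ} (hc : ∀ j, c ≤ a j) (h : N ≤ c * M) (χ : Pt B) :
    WW G (one n) M χ ≤ WW G a N χ := by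
  refine Ideal.span_mono ?_
  rintro _ ⟨m, hm, rfl⟩
  refine ⟨m, ?_, rfl⟩
  calc N ≤ c * M := h
    _ ≤ c * ∑ j, m j := by
        refine Nat.mul_le_mul_left _ ?_
        simpa [one] using hm
    _ = ∑ j, c * m j := by rw [Finset.mul_sum]
    _ ≤ ∑ j, a j * m j := Finset.sum_le_sum fun j _ => Nat.mul_le_mul_right _ (hc j)

theorem WW_le_ker {a : Fin n → ℕ} {N : ℕ} (hN : 1 ≤ N) (χ : Pt B) :
    WW G a N χ ≤ RingHom.ker χ := by
  rw [WW, Ideal.span_le]
  rintro _ ⟨m, hm, rfl⟩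
  have : ∃ j, m j ≠ 0 := by
    by_contra hcon
    push Not at hcon
    have : ∑ j, a j * m j = 0 := Finset.sum_eq_zero fun j _ => by simp [hcon j]
    omega
  obtain ⟨j, hj⟩ := this
  change χ _ = 0
  rw [map_prod]
  refine Finset.prod_eq_zero (Finset.mem_univ j) ?_
  rw [map_pow, map_sub, AlgHom.commutes]
  simp [hj]

theorem VanAt.apply_eq_zero {a : Fin n → ℕ} {N : ℕ} (hN : 1 ≤ N) {χ : Pt B} {F : B}
    (h : VanAt G a N χ F) : χ F = 0 := by
  obtain ⟨t, ht, hF⟩ := h
  have h1 : χ (t * F) = 0 := WW_le_ker hN χ hF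
  rw [map_mul] at h1
  exact (mul_eq_zero.1 h1).resolve_left ht

/-- the ideal `(y - χ(y))`. -/
def PP (G : Germ n d B) (χ : Pt B) : Ideal B :=
  Ideal.span (Set.range fun j => G.y j - algebraMap ℂ B (χ (G.y j)))

theorem PP_pow_le {a : Fin n → ℕ} (ha : ∀ j, 1 ≤ a j) (N : ℕ) (χ : Pt B) :
    PP G χ ^ N ≤ WW G a N χ := by
  classical
  have h1 : PP G χ ≤ WW G a 1 χ := by
    rw [PP, Ideal.span_le]
    rintro _ ⟨j, rfl⟩
    refine Ideal.subset_span ⟨Pi.single j 1, ?_, ?_⟩
    · have : ∑ k, a k * (Pi.single j 1 : Fin n → ℕ) k = a j := by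
        rw [Finset.sum_eq_single j]
        · simp
        · intro k _ hk; simp [hk]
        · intro h; exact absurd (Finset.mem_univ j) h
      rw [this]; exact ha j
    · rw [Finset.prod_eq_single j]
      · simp
      · intro k _ hk; simp [hk]
      · intro h; exact absurd (Finset.mem_univ j) h
  induction N with
  | zero =>
    have h0 : WW G a 0 χ = ⊤ :=
      (Ideal.eq_top_iff_one _).2 (Ideal.subset_span ⟨0, by simp, by simp⟩)
    rw [h0]
    exact le_top
  | succ N ih =>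
    rw [pow_succ]
    exact (Ideal.mul_mono ih h1).trans (WW_mul_le a N 1 χ)

end VanAt

/-! ### The fibre over a point outside the discriminant -/

section Fibre

variable {n d : ℕ} {B : Type} [CommRing B] [IsDomain B] [Algebra ℂ B]

theorem d_pos (G : Germ n d B) : 0 < d := by
  rcases Nat.eq_zero_or_pos d with h | h
  · subst h
    exact absurd (G.cf_spec 1) (by simp)
  · exact h

variable (G : Germ n d B)

/-- A function vanishing at all the points over `w` has all coordinates vanishing at `w`. -/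
theorem eval_cf_eq_zero {w : Fin n → ℂ} (hw : MvPolynomial.eval w G.D ≠ 0) {f : B}
    (hf : ∀ χ : Pt B, proj G.y χ = w → χ f = 0) (i : Fin d) :
    MvPolynomial.eval w (G.cf f i) = 0 := by
  classical
  set S : Set (Pt B) := {χ : Pt B | proj G.y χ = w} with hS
  have hcard : S.ncard = d := G.card w hw
  have hfin : S.Finite := Set.finite_of_ncard_ne_zero (by rw [hcard]; exact (d_pos G).ne')
  have : Fintype S := hfin.fintype
  have hc : Fintype.card S = Fintype.card (Fin d) := by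
    rw [Fintype.card_fin, ← hcard, ← Nat.card_coe_set_eq, Nat.card_eq_fintype_card]
  let ε : S ≃ Fin d := Fintype.equivOfCardEq hc
  let M : Matrix (Fin d) (Fin d) ℂ := fun a i => ((ε.symm a : S) : Pt B) (G.du i)
  let M' : Matrix (Fin d) (Fin d) ℂ := fun i a => ((ε.symm a : S) : Pt B) (G.e i)
  have h1 : M * M' = (MvPolynomial.eval w G.D) • (1 : Matrix (Fin d) (Fin d) ℂ) := by
    ext a b
    rw [Matrix.mul_apply, Matrix.smul_apply, Matrix.one_apply]
    have := G.du_spec w hw (ε.symm a : S) (ε.symm b : S) (ε.symm a : S).2 (ε.symm b : S).2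
    by_cases hab : a = b
    · subst hab
      simpa using this.1 rfl
    · rw [if_neg hab, smul_zero]
      exact this.2 fun h => hab (ε.symm.injective (Subtype.ext h))
  have h2 : M' * M = (MvPolynomial.eval w G.D) • (1 : Matrix (Fin d) (Fin d) ℂ) := by
    have h3 : ((MvPolynomial.eval w G.D)⁻¹ • M) * M' = 1 := by
      rw [Matrix.smul_mul, h1, smul_smul, inv_mul_cancel₀ hw, one_smul]
    have h4 := mul_eq_one_comm.1 h3
    rw [Matrix.mul_smul] at h4
    calc M' * M = (MvPolynomial.eval w G.D) • ((MvPolynomial.eval w G.D)⁻¹ • (M' * M)) := by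
          rw [smul_smul, mul_inv_cancel₀ hw, one_smul]
      _ = _ := by rw [h4]
  have h5 : ∀ a : Fin d, ∑ k, MvPolynomial.eval w (G.cf f k) * M' k a = 0 := by
    intro a
    have h6 := hf (ε.symm a : S) (ε.symm a : S).2
    rw [apply_eq_sum G] at h6
    rw [show proj G.y ((ε.symm a : S) : Pt B) = w from (ε.symm a : S).2] at h6
    exact h6
  have h7 : Matrix.vecMul (fun k => MvPolynomial.eval w (G.cf f k)) M' = 0 := by
    ext a
    simpa [Matrix.vecMul, dotProduct] using h5 a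
  have h8 : Matrix.vecMul (fun k => MvPolynomial.eval w (G.cf f k)) (M' * M) = 0 := by
    rw [← Matrix.vecMul_vecMul, h7, Matrix.zero_vecMul]
  rw [h2] at h8
  have h9 := congrFun h8 i
  simp only [Matrix.vecMul_smul, Matrix.vecMul_one, Pi.smul_apply, smul_eq_mul, Pi.zero_apply,
    mul_eq_zero] at h9
  exact h9.resolve_left hw

omit [IsDomain B] in
/-- A polynomial vanishing at `w` is in the ideal generated by the `X_j - w_j`. -/
theorem aeval_mem_PP {χ : Pt B} {P : MvPolynomial (Fin n) ℂ}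
    (hP : MvPolynomial.eval (proj G.y χ) P = 0) : aeval G.y P ∈ PP G χ := by
  have key : ∀ P : MvPolynomial (Fin n) ℂ,
      aeval G.y P - algebraMap ℂ B (MvPolynomial.eval (proj G.y χ) P) ∈ PP G χ := by
    intro P
    induction P using MvPolynomial.induction_on with
    | C c => simp
    | add P Q hP hQ =>
      rw [map_add, map_add, map_add]
      have := Ideal.add_mem _ hP hQ
      convert this using 1
      ring
    | mul_X P j hP =>
      rw [map_mul, map_mul, map_mul, MvPolynomial.aeval_X, MvPolynomial.eval_X]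
      have h1 : G.y j - algebraMap ℂ B (χ (G.y j)) ∈ PP G χ := Ideal.subset_span ⟨j, rfl⟩
      have h2 := Ideal.add_mem _ (Ideal.mul_mem_left _ (aeval G.y P) h1)
        (Ideal.mul_mem_right (algebraMap ℂ B (χ (G.y j))) _ hP)
      convert h2 using 1
      simp only [proj]
      ring
  simpa [hP] using key P

/-- a point outside the discriminant is a reduced isolated point of its fibre. -/
theorem exists_sep_point {χ : Pt B} (hD : MvPolynomial.eval (proj G.y χ) G.D ≠ 0) :
    ∃ t : B, χ t ≠ 0 ∧ ∀ b : B, χ b = 0 → t * b ∈ PP G χ := by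
  classical
  refine ⟨∑ i, algebraMap ℂ B (χ (G.e i)) * G.du i, ?_, fun b hb => ?_⟩
  · have h1 := (G.du_spec _ hD χ χ rfl rfl).1 rfl
    have h2 : χ (∑ i, algebraMap ℂ B (χ (G.e i)) * G.du i) =
        ∑ i, χ (G.du i) * χ (G.e i) := by
      rw [map_sum]
      refine Finset.sum_congr rfl fun i _ => ?_
      rw [map_mul, AlgHom.commutes, mul_comm]
      rfl
    rw [h2, h1]
    exact hD
  · set t := ∑ i, algebraMap ℂ B (χ (G.e i)) * G.du i with ht
    have h3 : ∀ χ' : Pt B, proj G.y χ' = proj G.y χ → χ' (t * b) = 0 := by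
      intro χ' hχ'
      by_cases hc : χ' = χ
      · subst hc
        rw [map_mul, hb, mul_zero]
      · have h4 := (G.du_spec _ hD χ' χ hχ' rfl).2 hc
        have h5 : χ' t = ∑ i, χ' (G.du i) * χ (G.e i) := by
          rw [ht, map_sum]
          refine Finset.sum_congr rfl fun i _ => ?_
          rw [map_mul, AlgHom.commutes, mul_comm]
          rfl
        rw [map_mul, h5, h4, zero_mul]
    rw [G.cf_spec (t * b)]
    refine Ideal.sum_mem _ fun i _ => Ideal.mul_mem_right _ _ ?_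
    exact aeval_mem_PP G (eval_cf_eq_zero G hD h3 i)

theorem vanAt_pow {a : Fin n → ℕ} (ha : ∀ j, 1 ≤ a j) (N : ℕ) {χ : Pt B}
    (hD : MvPolynomial.eval (proj G.y χ) G.D ≠ 0) (b : B) :
    VanAt G a N χ ((b - algebraMap ℂ B (χ b)) ^ N) := by
  obtain ⟨t, ht, h⟩ := exists_sep_point G hD
  refine ⟨t ^ N, by rw [map_pow]; exact pow_ne_zero _ ht, ?_⟩
  rw [← mul_pow]
  have h1 : χ (b - algebraMap ℂ B (χ b)) = 0 := by
    rw [map_sub, AlgHom.commutes]
    exact sub_self _
  exact PP_pow_le ha N χ (Ideal.pow_mem_pow (h _ h1) N)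

end Fibre

end Pool.Agent.Odp2
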